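import Pool.Agent.Helper5.HA.Model

/-!
# Exact Triangle with local access to one matrix

Instances: complete tripartite with the classes `part n v = 0, 1, 2` (the first third, the second
third and the rest of the vertices). The weights between class `0` and class `1` form the matrix
`A`, the rows are indexed by class `0`.

1. Phased machines: in every phase `q` rows of `A` are open; the rows are chosen according to the
memory state; at most `r` other weights are probed adaptively; the computation inside a phase is
arbitrary, but only the memory state survives.

2. Multihead machines: see `Model.lean`.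
-/

set_option autoImplicit false

namespace Pool.Agent.Helper5.HA

open Pool.Agent.Helper22.ETModel

/-- Weights. -/
abbrev Wts (n : ℕ) : Type := Fin n → Fin n → ℤ

/-- The cell `(i, j)` belongs to the matrix `A`. -/
def InA (n : ℕ) (i j : Fin n) : Prop := part n i = 0 ∧ part n j = 1

instance (n : ℕ) (i j : Fin n) : Decidable (InA n i j) := by unfold InA; infer_instance

/-- The rows of `A` with index in `O`, filled up with zeros. -/
def view {n : ℕ} (O : Finset (Fin n)) (w : Wts n) : Wts n := fun i j =>
  if i ∈ O ∧ InA n i j then w i j else 0

/-- The weights outside `A`, filled up with zeros. -/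
def hide {n : ℕ} (w : Wts n) : Wts n := fun i j =>
  if InA n i j ∨ InA n j i then 0 else w i j

/-- Decision trees with at most `r` adaptive probes and outputs in `α`. -/
inductive PTree (n : ℕ) (α : Type) : ℕ → Type
  | leaf {r : ℕ} (a : α) : PTree n α r
  | probe {r : ℕ} (i j : Fin n) (next : ℤ → PTree n α r) : PTree n α (r + 1)

/-- The output of a decision tree on the weights `w`. -/
def PTree.eval {n : ℕ} {α : Type} : {r : ℕ} → PTree n α r → Wts n → α
  | _, .leaf a, _ => a
  | _, .probe i j next, w => (next (w i j)).eval w

/-- A randomized phased machine with `R` random bits and the memory states `S`. In phase `p`, in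
state `s`, the rows `opn ρ p s` of the matrix `A` are open; according to their content a decision
tree with at most `r` probes of the other weights is chosen; its output is the next state. -/
structure Phased (n : ℕ) (S : Type) (q r R : ℕ) where
  init : (Fin R → Bool) → S
  opn : (Fin R → Bool) → ℕ → S → Finset (Fin n)
  card_opn : ∀ ρ p s, (opn ρ p s).card ≤ q
  act : (Fin R → Bool) → ℕ → S → Wts n → PTree n S r
  out : (Fin R → Bool) → S → Bool

/-- One phase. -/
def Phased.step {n : ℕ} {S : Type} {q r R : ℕ} (M : Phased n S q r R) (w : Wts n)
    (ρ : Fin R → Bool) (p : ℕ) (s : S) : S :=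
  (M.act ρ p s (view (M.opn ρ p s) w)).eval (hide w)

/-- State after `p` phases. -/
def Phased.run {n : ℕ} {S : Type} {q r R : ℕ} (M : Phased n S q r R) (w : Wts n)
    (ρ : Fin R → Bool) : ℕ → S
  | 0 => M.init ρ
  | p + 1 => M.step w ρ p (M.run w ρ p)

/-- The machine decides, with `P` phases and bounded error, Exact Triangle on the valid instances
that are complete tripartite with the classes `part`. -/
def Phased.Decides {n : ℕ} {S : Type} {q r R : ℕ} (M : Phased n S q r R) (P : ℕ) : Prop :=
  ∀ I : Inst n, I.Valid → Thirds I → 2 * 2 ^ R ≤ 3 * {ρ : Fin R → Bool |
    M.out ρ (M.run I.wt ρ P) = true ↔ I.Yes}.ncard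

end Pool.Agent.Helper5.HA
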