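import Pool.Agent.Helper5.HA.Statement

/-!
# Multihead machines are phased machines

A phase consists of `h = n * ℓ / 2` steps. The memory state of the phased machine is the state of
the multihead machine together with the positions of the heads (numbers at most `T`). A head moves
by at most `h` in a phase, so it stays in two rows of the tape (`2 * h ≤ n * ℓ`): `q = 2 * k` open
rows; and it visits at most `2 * h / ℓ + 2 ≤ n + 2` entries of the array: `r = k * (n + 2)` probes
(non-adaptive: all entries of the windows around the positions at the beginning of the phase). The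
number of phases is `T / h + 1`; steps after time `T` are not executed.
-/

set_option autoImplicit false

namespace Pool.Agent.Helper5.HA

open Pool.Agent.Helper22.ETModel

/-! ### Non-adaptive probes -/

/-- Probe the cells of a list, then continue with a function of the answers. -/
private def hrRead {n : ℕ} {α : Type} (f : Wts n → α) :
    (r : ℕ) → List (Fin n × Fin n) → Wts n → PTree n α r
  | 0, _, acc => .leaf (f acc)
  | _ + 1, [], acc => .leaf (f acc)
  | r + 1, c :: L, acc =>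
    .probe c.1 c.2 fun z => hrRead f r L fun a b => if (a, b) = c then z else acc a b

private theorem hrRead_eval {n : ℕ} {α : Type} (f : Wts n → α) (w : Wts n) :
    ∀ (r : ℕ) (L : List (Fin n × Fin n)) (acc : Wts n), L.length ≤ r →
      (hrRead f r L acc).eval w = f fun a b => if (a, b) ∈ L then w a b else acc a b := by
  intro r
  induction r with
  | zero =>
    intro L acc hL
    have h0 : L = [] := List.length_eq_zero_iff.1 (by omega)
    subst h0
    simp [hrRead, PTree.eval]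
  | succ r ih =>
    intro L acc hL
    cases L with
    | nil => simp [hrRead, PTree.eval]
    | cons c L =>
      rw [hrRead, PTree.eval, ih L _ (by simpa using hL)]
      congr 1
      funext a b
      by_cases h1 : (a, b) ∈ L
      · rw [if_pos h1, if_pos (List.mem_cons_of_mem _ h1)]
      · rw [if_neg h1]
        by_cases h2 : (a, b) = c
        · rw [if_pos h2, if_pos (by rw [h2]; exact List.mem_cons_self), ← h2]
        · rw [if_neg h2, if_neg]
          intro h3
          rcases List.mem_cons.1 h3 with h3 | h3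
          · exact h2 h3
          · exact h1 h3

/-! ### Runs from a given configuration -/

/-- `m` steps from time `t0` on. -/
private def hrSteps {S Γ : Type} {k R : ℕ} (M : Heads S Γ k R) (τ : ℕ → Γ) (ρ : Fin R → Bool)
    (t0 : ℕ) (c : S × (Fin k → ℕ)) : ℕ → S × (Fin k → ℕ)
  | 0 => c
  | m + 1 =>
    ((M.next ρ (t0 + m) (hrSteps M τ ρ t0 c m).1 (hrSteps M τ ρ t0 c m).2
        fun i => τ ((hrSteps M τ ρ t0 c m).2 i)).1,
      fun i => move ((hrSteps M τ ρ t0 c m).2 i)
        ((M.next ρ (t0 + m) (hrSteps M τ ρ t0 c m).1 (hrSteps M τ ρ t0 c m).2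
          fun i => τ ((hrSteps M τ ρ t0 c m).2 i)).2 i))

private theorem hrSteps_run {S Γ : Type} {k R : ℕ} (M : Heads S Γ k R) (τ : ℕ → Γ)
    (ρ : Fin R → Bool) (t0 m : ℕ) : hrSteps M τ ρ t0 (M.run τ ρ t0) m = M.run τ ρ (t0 + m) := by
  induction m with
  | zero => rfl
  | succ m ih =>
    rw [hrSteps, ih, ← add_assoc, Heads.run]

private theorem hr_move_le (p : ℕ) (d : Fin 3) : move p d ≤ p + 1 ∧ p ≤ move p d + 1 := by
  unfold move
  split_ifs <;> omega

private theorem hrRun_le {S Γ : Type} {k R : ℕ} (M : Heads S Γ k R) (τ : ℕ → Γ)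
    (ρ : Fin R → Bool) (t : ℕ) (i : Fin k) : (M.run τ ρ t).2 i ≤ t := by
  induction t with
  | zero => simp [Heads.run]
  | succ t ih =>
    rw [Heads.run]
    refine (hr_move_le _ _).1.trans ?_
    omega

private theorem hrSteps_congr {S Γ : Type} {k R : ℕ} (M : Heads S Γ k R) (τ τ' : ℕ → Γ)
    (ρ : Fin R → Bool) (t0 : ℕ) (c : S × (Fin k → ℕ)) (H : ℕ)
    (h : ∀ i x, c.2 i ≤ x + (H - 1) → x ≤ c.2 i + (H - 1) → τ x = τ' x) :
    ∀ m ≤ H, hrSteps M τ ρ t0 c m = hrSteps M τ' ρ t0 c m ∧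
      ∀ i, (hrSteps M τ ρ t0 c m).2 i ≤ c.2 i + m ∧ c.2 i ≤ (hrSteps M τ ρ t0 c m).2 i + m := by
  intro m
  induction m with
  | zero => intro _; exact ⟨rfl, fun i => ⟨le_rfl, le_rfl⟩⟩
  | succ m ih =>
    intro hm
    obtain ⟨ih1, ih2⟩ := ih (by omega)
    have h1 : (fun i => τ ((hrSteps M τ ρ t0 c m).2 i)) =
        fun i => τ' ((hrSteps M τ ρ t0 c m).2 i) := by
      funext i
      obtain ⟨a1, a2⟩ := ih2 i
      exact h i _ (by omega) (by omega)
    constructor
    · rw [hrSteps, hrSteps, ← ih1, h1]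
    · intro i
      rw [hrSteps]
      obtain ⟨a1, a2⟩ := ih2 i
      dsimp only
      obtain ⟨b1, b2⟩ := hr_move_le ((hrSteps M τ ρ t0 c m).2 i)
        ((M.next ρ (t0 + m) (hrSteps M τ ρ t0 c m).1 (hrSteps M τ ρ t0 c m).2
          fun i => τ ((hrSteps M τ ρ t0 c m).2 i)).2 i)
      constructor <;> omega

/-! ### The simulation -/

/-- The cell with number `b`. -/
private def hrCell (n : ℕ) (hn : 0 < n) (b : ℕ) : Fin n × Fin n :=
  (⟨b / n % n, Nat.mod_lt _ hn⟩, ⟨b % n, Nat.mod_lt _ hn⟩)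

/-- The cells in the windows of the heads. -/
private def hrCells (n ℓ k H : ℕ) (hn : 0 < n) (pos : Fin k → ℕ) : Finset (Fin n × Fin n) :=
  ((Finset.univ : Finset (Fin k)) ×ˢ Finset.range (n + 2)).image fun c =>
    hrCell n hn ((pos c.1 - (H - 1)) / ℓ + c.2)

private theorem hrCells_card (n ℓ k H : ℕ) (hn : 0 < n) (pos : Fin k → ℕ) :
    (hrCells n ℓ k H hn pos).card ≤ k * (n + 2) := by
  refine Finset.card_image_le.trans ?_
  rw [Finset.card_product, Finset.card_univ, Fintype.card_fin, Finset.card_range]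

/-- The rows in the windows of the heads. -/
private def hrRows (n ℓ k H : ℕ) (hn : 0 < n) (pos : Fin k → ℕ) : Finset (Fin n) :=
  ((Finset.univ : Finset (Fin k × Bool))).image fun c =>
    if c.2 then ⟨(pos c.1 - (H - 1)) / (n * ℓ) % n, Nat.mod_lt _ hn⟩
    else ⟨(pos c.1 + (H - 1)) / (n * ℓ) % n, Nat.mod_lt _ hn⟩

private theorem hrRows_card (n ℓ k H : ℕ) (hn : 0 < n) (pos : Fin k → ℕ) :
    (hrRows n ℓ k H hn pos).card ≤ 2 * k := by
  refine Finset.card_image_le.trans ?_
  rw [Finset.card_univ, Fintype.card_prod, Fintype.card_fin, Fintype.card_bool, mul_comm]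

/-- The instance that the phased machine sees. -/
private def hrInst {n : ℕ} (v W : Wts n) : Inst n where
  flag a b := decide (part n a ≠ part n b)
  wt a b := if InA n a b then v a b else W a b

/-- Positions cut off at `T`. -/
private def hrCut {S : Type} {k : ℕ} (T : ℕ) (c : S × (Fin k → ℕ)) : S × (Fin k → Fin (T + 1)) :=
  (c.1, fun i => ⟨min (c.2 i) T, by omega⟩)

private def hrVal {S : Type} {k T : ℕ} (s : S × (Fin k → Fin (T + 1))) : S × (Fin k → ℕ) :=
  (s.1, fun i => (s.2 i : ℕ))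

/-- The phased machine. -/
private noncomputable def hrM {S Γ : Type} {k R : ℕ} (n ℓ T H : ℕ) (hn : 0 < n)
    (enc : Bool → ℤ → ℕ → Γ) (blank : Γ) (M : Heads S Γ k R) :
    Phased n (S × (Fin k → Fin (T + 1))) (2 * k) (k * (n + 2)) R where
  init ρ := hrCut T (M.init ρ, fun _ => 0)
  opn _ _ s := hrRows n ℓ k H hn (hrVal s).2
  card_opn _ _ _ := hrRows_card n ℓ k H hn _
  act ρ p s v := hrRead (fun W => hrCut T (hrSteps M (tape (ℓ := ℓ) enc blank (hrInst v W)) ρ
    (min (p * H) T) (hrVal s) (min H (T - p * H)))) _ (hrCells n ℓ k H hn (hrVal s).2).toList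
    fun _ _ => 0
  out ρ s := M.out ρ s.1

private theorem hr_tape {n ℓ k : ℕ} {Γ : Type} (enc : Bool → ℤ → ℕ → Γ) (blank : Γ) (hn : 0 < n)
    (hℓ : 1 ≤ ℓ) (I : Inst n) (hI : Thirds I) (H : ℕ) (hH : 2 * H ≤ n * ℓ) (hH1 : 1 ≤ H)
    (pos : Fin k → ℕ) (i : Fin k) (x : ℕ) (h1 : pos i ≤ x + (H - 1)) (h2 : x ≤ pos i + (H - 1)) :
    tape (ℓ := ℓ) enc blank I x = tape (ℓ := ℓ) enc blank (hrInst (view (hrRows n ℓ k H hn pos) I.wt)
      fun a b => if (a, b) ∈ (hrCells n ℓ k H hn pos).toList then hide I.wt a b else 0) x := by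
  unfold tape
  by_cases h : x / (n * ℓ) < n ∧ x / ℓ % n < n
  · rw [dif_pos h, dif_pos h]
    by_cases hlt : x / (n * ℓ) < x / ℓ % n
    · rw [if_pos hlt, if_pos hlt]
      have hflag : I.flag ⟨x / (n * ℓ), h.1⟩ ⟨x / ℓ % n, h.2⟩ =
          decide (part n ⟨x / (n * ℓ), h.1⟩ ≠ part n ⟨x / ℓ % n, h.2⟩) := by
        rw [Bool.eq_iff_iff, decide_eq_true_eq]
        exact hI _ _
      have hnl : 0 < n * ℓ := Nat.mul_pos hn hℓ
      have hrow : (⟨x / (n * ℓ), h.1⟩ : Fin n) ∈ hrRows n ℓ k H hn pos := by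
        unfold hrRows
        rw [Finset.mem_image]
        have a1 : (pos i - (H - 1)) / (n * ℓ) ≤ x / (n * ℓ) := Nat.div_le_div_right (by omega)
        have a2 : x / (n * ℓ) ≤ (pos i + (H - 1)) / (n * ℓ) := Nat.div_le_div_right (by omega)
        have a3 : (pos i + (H - 1)) / (n * ℓ) ≤ (pos i - (H - 1)) / (n * ℓ) + 1 := by
          rw [← Nat.add_div_right _ hnl]
          exact Nat.div_le_div_right (by omega)
        rcases Nat.eq_or_lt_of_le a1 with a4 | a4
        · refine ⟨(i, true), Finset.mem_univ _, ?_⟩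
          rw [if_pos rfl]
          apply Fin.ext
          dsimp only
          rw [a4, Nat.mod_eq_of_lt h.1]
        · refine ⟨(i, false), Finset.mem_univ _, ?_⟩
          rw [if_neg (by simp)]
          apply Fin.ext
          dsimp only
          rw [show (pos i + (H - 1)) / (n * ℓ) = x / (n * ℓ) by omega, Nat.mod_eq_of_lt h.1]
      have hcell : ((⟨x / (n * ℓ), h.1⟩, ⟨x / ℓ % n, h.2⟩) : Fin n × Fin n) ∈
          (hrCells n ℓ k H hn pos).toList := by
        rw [Finset.mem_toList]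
        unfold hrCells
        rw [Finset.mem_image]
        have a1 : (pos i - (H - 1)) / ℓ ≤ x / ℓ := Nat.div_le_div_right (by omega)
        have a2 : x / ℓ ≤ (pos i - (H - 1)) / ℓ + n := by
          have a3 : x / ℓ ≤ (pos i - (H - 1) + n * ℓ) / ℓ := Nat.div_le_div_right (by omega)
          rwa [Nat.add_mul_div_right _ _ hℓ] at a3
        refine ⟨(i, x / ℓ - (pos i - (H - 1)) / ℓ), ?_, ?_⟩
        · rw [Finset.mem_product]
          exact ⟨Finset.mem_univ _, Finset.mem_range.2 (by dsimp only; omega)⟩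
        · dsimp only
          rw [show (pos i - (H - 1)) / ℓ + (x / ℓ - (pos i - (H - 1)) / ℓ) = x / ℓ by omega]
          unfold hrCell
          have a5 : x / ℓ / n = x / (n * ℓ) := by rw [Nat.div_div_eq_div_mul, mul_comm ℓ n]
          apply Prod.ext
          · apply Fin.ext
            dsimp only
            rw [a5, Nat.mod_eq_of_lt h.1]
          · rfl
      have hwt : I.wt ⟨x / (n * ℓ), h.1⟩ ⟨x / ℓ % n, h.2⟩ =
          (hrInst (view (hrRows n ℓ k H hn pos) I.wt) fun a b =>
            if (a, b) ∈ (hrCells n ℓ k H hn pos).toList then hide I.wt a b else 0).wt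
            ⟨x / (n * ℓ), h.1⟩ ⟨x / ℓ % n, h.2⟩ := by
        unfold hrInst
        dsimp only
        by_cases hA : InA n ⟨x / (n * ℓ), h.1⟩ ⟨x / ℓ % n, h.2⟩
        · rw [if_pos hA]
          unfold view
          rw [if_pos ⟨hrow, hA⟩]
        · rw [if_neg hA, if_pos hcell]
          unfold hide
          rw [if_neg]
          rintro (hB | hB)
          · exact hA hB
          · obtain ⟨b1, b2⟩ := hB
            unfold part at b1 b2
            dsimp only at b1 b2
            split_ifs at b1 b2 <;> omega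
      rw [hflag, hwt]
      rfl
    · rw [if_neg hlt, if_neg hlt]
  · rw [dif_neg h, dif_neg h]

/-- The simulation. -/
theorem heads_to_phased (n ℓ k R T : ℕ) (S Γ : Type) (enc : Bool → ℤ → ℕ → Γ) (blank : Γ)
    (hn : 3 ≤ n) (hℓ : 1 ≤ ℓ) (M : Heads S Γ k R) (hM : M.Decides n ℓ enc blank T) :
    ∃ M' : Phased n (S × (Fin k → Fin (T + 1))) (2 * k) (k * (n + 2)) R,
      M'.Decides (T / (n * ℓ / 2) + 1) := by
  have hn0 : 0 < n := by omega
  have hnl : 3 ≤ n * ℓ := le_trans hn (Nat.le_mul_of_pos_right n hℓ)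
  set H := n * ℓ / 2 with hHdef
  have hH1 : 1 ≤ H := by omega
  have hH2 : 2 * H ≤ n * ℓ := by omega
  refine ⟨hrM n ℓ T H hn0 enc blank M, ?_⟩
  intro I hV hI
  have hrun : ∀ ρ p, (hrM n ℓ T H hn0 enc blank M).run I.wt ρ p =
      hrCut T (M.run (tape (ℓ := ℓ) enc blank I) ρ (min (p * H) T)) := by
    intro ρ p
    induction p with
    | zero =>
      rw [zero_mul, Nat.zero_min]
      rfl
    | succ p ih =>
      have hval : hrVal (hrCut T (M.run (tape (ℓ := ℓ) enc blank I) ρ (min (p * H) T))) =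
          M.run (tape (ℓ := ℓ) enc blank I) ρ (min (p * H) T) := by
        unfold hrVal hrCut
        apply Prod.ext
        · rfl
        · funext i
          dsimp only
          exact min_eq_left ((hrRun_le M _ ρ _ i).trans (min_le_right _ _))
      rw [Phased.run, ih]
      unfold Phased.step
      have hact : ∀ s v, (hrM n ℓ T H hn0 enc blank M).act ρ p s v =
          hrRead (fun W => hrCut T (hrSteps M (tape (ℓ := ℓ) enc blank (hrInst v W)) ρ
            (min (p * H) T) (hrVal s) (min H (T - p * H)))) _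
            (hrCells n ℓ k H hn0 (hrVal s).2).toList fun _ _ => 0 := fun _ _ => rfl
      have hopn : ∀ s, (hrM n ℓ T H hn0 enc blank M).opn ρ p s = hrRows n ℓ k H hn0 (hrVal s).2 :=
        fun _ => rfl
      rw [hact, hopn, hrRead_eval _ _ _ _ _ (by
        rw [Finset.length_toList]
        exact hrCells_card n ℓ k H hn0 _), hval]
      have hcongr := (hrSteps_congr M (tape (ℓ := ℓ) enc blank I) _ ρ (min (p * H) T)
        (M.run (tape (ℓ := ℓ) enc blank I) ρ (min (p * H) T)) H
        (fun i x h1 h2 => hr_tape (ℓ := ℓ) enc blank hn0 hℓ I hI H hH2 hH1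
          (M.run (tape (ℓ := ℓ) enc blank I) ρ (min (p * H) T)).2 i x h1 h2)
        (min H (T - p * H)) (min_le_left _ _)).1
      rw [← hcongr, hrSteps_run]
      have ht : min (p * H) T + min H (T - p * H) = min ((p + 1) * H) T := by
        have e : (p + 1) * H = p * H + H := by ring
        rw [e]
        omega
      rw [ht]
  have hP : min ((T / H + 1) * H) T = T := by
    apply min_eq_right
    have := Nat.lt_div_mul_add (a := T) (b := H) (by omega)
    have e : (T / H + 1) * H = T / H * H + H := by ring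
    omega
  have hout : ∀ ρ, (hrM n ℓ T H hn0 enc blank M).out ρ
      ((hrM n ℓ T H hn0 enc blank M).run I.wt ρ (T / H + 1)) =
      M.out ρ (M.run (tape (ℓ := ℓ) enc blank I) ρ T).1 := by
    intro ρ
    rw [hrun, hP]
    rfl
  simp only [hout]
  exact hM I hV hI

/-- The lower bound for multihead machines (arithmetic: `T ≤ ℓ * n ^ 3` without loss of
generality, `T / (n * ℓ / 2) + 1 ≤ 4 * T / (n * ℓ)`). -/
theorem headsLower (h : PhasedLower) : HeadsLower := by
  intro n ℓ k R T S Γ _ enc blank hn hℓ hk hT M hM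
  classical
  have hS : Nonempty S := ⟨M.init fun _ => true⟩
  have hnl : 3 ≤ n * ℓ := le_trans hn (Nat.le_mul_of_pos_right n hℓ)
  have hnR : (3 : ℝ) ≤ n := by exact_mod_cast hn
  have hℓR : (1 : ℝ) ≤ ℓ := by exact_mod_cast hℓ
  have hkR : (1 : ℝ) ≤ k := by exact_mod_cast hk
  have hnlR : (3 : ℝ) ≤ (n : ℝ) * ℓ := by exact_mod_cast hnl
  have hTR : (n : ℝ) * ℓ ≤ T := by exact_mod_cast hT
  have hcS : (1 : ℝ) ≤ Fintype.card S := by
    exact_mod_cast Fintype.card_pos
  set a := Real.logb 2 (Fintype.card S) with ha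
  set b := Real.logb 2 ((n : ℝ) * ℓ) with hb
  have ha0 : 0 ≤ a := Real.logb_nonneg (by norm_num) hcS
  have hb1 : 1 ≤ b := by
    rw [hb, Real.le_logb_iff_rpow_le (by norm_num) (by linarith)]
    rw [Real.rpow_one]
    linarith
  have hlogn : Real.logb 2 n ≤ b :=
    Real.logb_le_logb_of_le (by norm_num) (by linarith) (by nlinarith)
  have hlogn0 : 0 ≤ Real.logb 2 n := Real.logb_nonneg (by norm_num) (by linarith)
  have hkb : 1 ≤ (k : ℝ) * b := by nlinarith
  rcases le_or_gt ((ℓ : ℝ) * (n : ℝ) ^ 3) T with hbig | hsmall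
  · have h1 : (T : ℝ) ≤ 2 ^ 18 * k * T * (a + k * b) := by
      have hT0 : (0 : ℝ) ≤ T := by linarith
      have h2 : (1 : ℝ) ≤ 2 ^ 18 * k := by linarith
      have h3 : (1 : ℝ) ≤ a + k * b := by linarith
      have h4 : (1 : ℝ) ≤ 2 ^ 18 * k * (a + k * b) := one_le_mul_of_one_le_of_one_le h2 h3
      nlinarith
    exact hbig.trans h1
  · obtain ⟨M', hM'⟩ := heads_to_phased n ℓ k R T S Γ enc blank hn hℓ M hM
    have h0 := h n (T / (n * ℓ / 2) + 1) (2 * k) (k * (n + 2)) R (S × (Fin k → Fin (T + 1))) hn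
      (Nat.succ_le_succ (Nat.zero_le _)) (by omega) M' hM'
    -- number of phases
    have hP : ((T / (n * ℓ / 2) + 1 : ℕ) : ℝ) * ((n : ℝ) * ℓ) ≤ 4 * T := by
      have h1 : n * ℓ ≤ 3 * (n * ℓ / 2) := by omega
      have h2 : T / (n * ℓ / 2) * (n * ℓ / 2) ≤ T := Nat.div_mul_le_self _ _
      have h3 : T / (n * ℓ / 2) * (n * ℓ) ≤ 3 * T := by
        calc T / (n * ℓ / 2) * (n * ℓ) ≤ T / (n * ℓ / 2) * (3 * (n * ℓ / 2)) :=
              Nat.mul_le_mul_left _ h1
          _ = 3 * (T / (n * ℓ / 2) * (n * ℓ / 2)) := by ring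
          _ ≤ 3 * T := Nat.mul_le_mul_left _ h2
      have h4 : (T / (n * ℓ / 2) + 1) * (n * ℓ) ≤ 4 * T := by
        rw [add_mul, one_mul]
        omega
      exact_mod_cast h4
    -- memory states
    have hcard : Real.logb 2 (Fintype.card (S × (Fin k → Fin (T + 1)))) ≤ a + k * (4 * b) := by
      have h1 : (Fintype.card (S × (Fin k → Fin (T + 1))) : ℝ) =
          (Fintype.card S : ℝ) * ((T : ℝ) + 1) ^ k := by
        rw [Fintype.card_prod, Fintype.card_fun, Fintype.card_fin, Fintype.card_fin]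
        push_cast
        ring
      rw [h1, Real.logb_mul (by linarith) (by positivity), Real.logb_pow]
      have h2 : Real.logb 2 ((T : ℝ) + 1) ≤ 4 * b := by
        have h3 : (T : ℝ) + 1 ≤ ((n : ℝ) * ℓ) ^ 4 := by
          have h4 : (ℓ : ℝ) * (n : ℝ) ^ 3 ≤ ((n : ℝ) * ℓ) ^ 3 := by
            have h5 : (ℓ : ℝ) ≤ (ℓ : ℝ) ^ 3 := by
              nlinarith [mul_nonneg (by linarith : (0 : ℝ) ≤ ℓ) (by nlinarith : (0 : ℝ) ≤ (ℓ : ℝ) ^ 2 - 1)]
            have h6 : (0 : ℝ) ≤ (n : ℝ) ^ 3 := by positivity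
            calc (ℓ : ℝ) * (n : ℝ) ^ 3 ≤ (ℓ : ℝ) ^ 3 * (n : ℝ) ^ 3 :=
                  mul_le_mul_of_nonneg_right h5 h6
              _ = ((n : ℝ) * ℓ) ^ 3 := by ring
          have h7 : (1 : ℝ) ≤ ((n : ℝ) * ℓ) ^ 3 := one_le_pow₀ (by linarith)
          have h8 : ((n : ℝ) * ℓ) ^ 4 = ((n : ℝ) * ℓ) ^ 3 * ((n : ℝ) * ℓ) := by ring
          rw [h8]
          nlinarith
        have h9 : Real.logb 2 (((n : ℝ) * ℓ) ^ 4) = 4 * b := by
          rw [Real.logb_pow, ← hb]
          norm_num
        rw [← h9]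
        exact Real.logb_le_logb_of_le (by norm_num) (by positivity) h3
      have h3 : (k : ℝ) * Real.logb 2 ((T : ℝ) + 1) ≤ k * (4 * b) :=
        mul_le_mul_of_nonneg_left h2 (by linarith)
      linarith
    have hsum : (n : ℝ) * (Real.logb 2 (Fintype.card (S × (Fin k → Fin (T + 1)))) +
        Real.logb 2 n) + ((k * (n + 2) : ℕ) : ℝ) * Real.logb 2 n ≤ 7 * n * (a + k * b) := by
      have h1 : (n : ℝ) * (Real.logb 2 (Fintype.card (S × (Fin k → Fin (T + 1)))) +
          Real.logb 2 n) ≤ n * (a + k * (4 * b) + b) :=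
        mul_le_mul_of_nonneg_left (by linarith) (by linarith)
      have h2 : ((k * (n + 2) : ℕ) : ℝ) * Real.logb 2 n ≤ (k * (2 * n)) * b := by
        push_cast
        refine mul_le_mul ?_ hlogn hlogn0 (by positivity)
        exact mul_le_mul_of_nonneg_left (by linarith) (by linarith)
      have h3 : b ≤ k * b := by nlinarith
      have h4 : (n : ℝ) * (a + k * (4 * b) + b) ≤ n * (a + 5 * (k * b)) :=
        mul_le_mul_of_nonneg_left (by linarith) (by linarith)
      have h5 : (0 : ℝ) ≤ n * a := by positivity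
      nlinarith
    have hmain : (n : ℝ) ^ 3 ≤ 2 ^ 12 * (2 * k) * ((T / (n * ℓ / 2) + 1 : ℕ) : ℝ) *
        (7 * n * (a + k * b)) := by
      refine h0.trans ?_
      have e : ((2 * k : ℕ) : ℝ) = 2 * (k : ℝ) := by push_cast; ring
      rw [e]
      exact mul_le_mul_of_nonneg_left hsum (by positivity)
    have hn0 : (0 : ℝ) < n := by linarith
    have hpos : 0 ≤ 2 ^ 12 * 14 * (k : ℝ) * (a + k * b) := by positivity
    have e1 : (ℓ : ℝ) * (n : ℝ) ^ 3 ≤ 2 ^ 12 * 14 * k * (a + k * b) *
        (((T / (n * ℓ / 2) + 1 : ℕ) : ℝ) * ((n : ℝ) * ℓ)) := by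
      calc (ℓ : ℝ) * (n : ℝ) ^ 3 ≤ ℓ * (2 ^ 12 * (2 * k) * ((T / (n * ℓ / 2) + 1 : ℕ) : ℝ) *
            (7 * n * (a + k * b))) := mul_le_mul_of_nonneg_left hmain (by linarith)
        _ = _ := by ring
    have e2 := mul_le_mul_of_nonneg_left hP hpos
    have hT0 : (0 : ℝ) ≤ T := by linarith
    have e3 : 0 ≤ (k : ℝ) * T * (a + k * b) := by positivity
    calc (ℓ : ℝ) * (n : ℝ) ^ 3 ≤ 2 ^ 12 * 14 * k * (a + k * b) * (4 * T) := e1.trans e2
      _ = 2 ^ 12 * 56 * (k * T * (a + k * b)) := by ring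
      _ ≤ 2 ^ 18 * (k * T * (a + k * b)) := by nlinarith
      _ = _ := by ring

end Pool.Agent.Helper5.HA
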