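import Pool.Agent.Helper5.HA.Defs
import Pool.Agent.Helper8.VS.Info

/-!
# The instances

`α x y` and `β z y` are numbers below `Q`; the weight between the vertex `x` of class `0` and the
vertex `y` of class `1` is `α x y`; between the vertex `y` of class `1` and the vertex number `z`
of class `2` it is `- β z y` if `z < n / 3`, and `1` for the (at most two) other vertices of
class `2`; all weights between class `0` and class `2` are `0`. There is a zero triangle if and
only if `α x y = β z y` for some `x`, `y`, `z`.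
-/

set_option autoImplicit false

open Finset
open scoped BigOperators

namespace Pool.Agent.Helper5.HA

open Pool.Agent.Helper22.ETModel

/-- The weights of the cells `(u, v)` with `part u < part v`; `0` in all other cells. -/
def upW {n Q : ℕ} (α β : Fin (n / 3) → Fin (n / 3) → Fin Q) (u v : Fin n) : ℤ :=
  if h : (u : ℕ) < n / 3 ∧ n / 3 ≤ (v : ℕ) ∧ (v : ℕ) < 2 * (n / 3) then
    ((α ⟨u, h.1⟩ ⟨v - n / 3, by omega⟩ : Fin Q) : ℕ)
  else if h : n / 3 ≤ (u : ℕ) ∧ (u : ℕ) < 2 * (n / 3) ∧ 2 * (n / 3) ≤ (v : ℕ) ∧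
      (v : ℕ) < 3 * (n / 3) then
    -((β ⟨v - 2 * (n / 3), by omega⟩ ⟨u - n / 3, by omega⟩ : Fin Q) : ℕ)
  else if n / 3 ≤ (u : ℕ) ∧ (u : ℕ) < 2 * (n / 3) ∧ 3 * (n / 3) ≤ (v : ℕ) then 1
  else 0

/-- The instance. -/
def inst {n Q : ℕ} (α β : Fin (n / 3) → Fin (n / 3) → Fin Q) : Inst n where
  flag u v := decide (part n u ≠ part n v)
  wt u v := upW α β u v + upW α β v u

variable {n Q : ℕ}

theorem inst_thirds (α β : Fin (n / 3) → Fin (n / 3) → Fin Q) : Thirds (inst α β) := by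
  intro u v
  simp [inst]

theorem part_eq_zero {v : Fin n} : part n v = 0 ↔ (v : ℕ) < n / 3 := by
  unfold part
  split_ifs with h1 h2
  · simp [h1]
  · simp [h1]
  · simp [h1]

theorem part_eq_one {v : Fin n} : part n v = 1 ↔ n / 3 ≤ (v : ℕ) ∧ (v : ℕ) < 2 * (n / 3) := by
  unfold part
  split_ifs with h1 h2
  · simp
    omega
  · simp
    omega
  · simp
    omega

theorem part_eq_two {v : Fin n} : part n v = 2 ↔ 2 * (n / 3) ≤ (v : ℕ) := by
  unfold part
  split_ifs with h1 h2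
  · simp
    omega
  · simp
    omega
  · simp
    omega

theorem upW_zero_one (α β : Fin (n / 3) → Fin (n / 3) → Fin Q) {u v : Fin n} (hu : (u : ℕ) < n / 3)
    (hv : n / 3 ≤ (v : ℕ) ∧ (v : ℕ) < 2 * (n / 3)) :
    upW α β u v = ((α ⟨u, hu⟩ ⟨v - n / 3, by omega⟩ : Fin Q) : ℕ) := by
  unfold upW
  rw [dif_pos ⟨hu, hv.1, hv.2⟩]

theorem upW_one_two (α β : Fin (n / 3) → Fin (n / 3) → Fin Q) {u v : Fin n}
    (hu : n / 3 ≤ (u : ℕ) ∧ (u : ℕ) < 2 * (n / 3))
    (hv : 2 * (n / 3) ≤ (v : ℕ) ∧ (v : ℕ) < 3 * (n / 3)) :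
    upW α β u v = -((β ⟨v - 2 * (n / 3), by omega⟩ ⟨u - n / 3, by omega⟩ : Fin Q) : ℕ) := by
  unfold upW
  rw [dif_neg (by omega), dif_pos ⟨hu.1, hu.2, hv.1, hv.2⟩]

theorem upW_one_rest (α β : Fin (n / 3) → Fin (n / 3) → Fin Q) {u v : Fin n}
    (hu : n / 3 ≤ (u : ℕ) ∧ (u : ℕ) < 2 * (n / 3)) (hv : 3 * (n / 3) ≤ (v : ℕ)) :
    upW α β u v = 1 := by
  unfold upW
  rw [dif_neg (by omega), dif_neg (by omega), if_pos ⟨hu.1, hu.2, hv⟩]

theorem upW_eq_zero (α β : Fin (n / 3) → Fin (n / 3) → Fin Q) {u v : Fin n}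
    (h : 2 * (n / 3) ≤ (u : ℕ) ∨ (v : ℕ) < n / 3 ∨ (n / 3 ≤ (u : ℕ) ∧ (v : ℕ) < 2 * (n / 3)) ∨
      ((u : ℕ) < n / 3 ∧ 2 * (n / 3) ≤ (v : ℕ))) :
    upW α β u v = 0 := by
  unfold upW
  rw [dif_neg (by omega), dif_neg (by omega), if_neg (by omega)]

theorem upW_abs (hQ : Q ≤ n ^ 300) (hn : 1 ≤ n) (α β : Fin (n / 3) → Fin (n / 3) → Fin Q)
    (u v : Fin n) : |upW α β u v| ≤ (n : ℤ) ^ 300 := by
  have hQ' : (Q : ℤ) ≤ (n : ℤ) ^ 300 := by exact_mod_cast hQ
  have h1 : (1 : ℤ) ≤ (n : ℤ) ^ 300 := one_le_pow₀ (by exact_mod_cast hn)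
  unfold upW
  split_ifs with h2 h3 h4
  · have h5 := (α ⟨u, h2.1⟩ ⟨v - n / 3, by omega⟩).2
    rw [Nat.abs_cast]
    omega
  · have h5 := (β ⟨v - 2 * (n / 3), by omega⟩ ⟨u - n / 3, by omega⟩).2
    rw [abs_neg, Nat.abs_cast]
    omega
  · rw [abs_one]
    exact h1
  · rw [abs_zero]
    omega

theorem inst_valid (hQ : Q ≤ n ^ 300) (hn : 1 ≤ n) (α β : Fin (n / 3) → Fin (n / 3) → Fin Q) :
    (inst α β).Valid := by
  refine ⟨?_, ?_, ?_, ?_⟩
  · intro i j
    exact decide_eq_decide.2 ne_comm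
  · intro i
    simp [inst]
  · intro i j
    show upW α β i j + upW α β j i = upW α β j i + upW α β i j
    ring
  · intro i j
    show |upW α β i j + upW α β j i| ≤ (n : ℤ) ^ 300
    rcases Nat.lt_or_ge (j : ℕ) (n / 3) with h1 | h1
    · rw [upW_eq_zero α β (u := i) (v := j) (by omega), zero_add]
      exact upW_abs hQ hn α β j i
    · rcases Nat.lt_or_ge (i : ℕ) (n / 3) with h2 | h2
      · rw [upW_eq_zero α β (u := j) (v := i) (by omega), add_zero]
        exact upW_abs hQ hn α β i j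
      · rcases Nat.lt_or_ge (j : ℕ) (2 * (n / 3)) with h3 | h3
        · rw [upW_eq_zero α β (u := i) (v := j) (by omega), zero_add]
          exact upW_abs hQ hn α β j i
        · rw [upW_eq_zero α β (u := j) (v := i) (by omega), add_zero]
          exact upW_abs hQ hn α β i j

theorem inst_wt_comm (α β : Fin (n / 3) → Fin (n / 3) → Fin Q) (u v : Fin n) :
    (inst α β).wt u v = (inst α β).wt v u := by
  show upW α β u v + upW α β v u = upW α β v u + upW α β u v
  ring

theorem inst_key (α β : Fin (n / 3) → Fin (n / 3) → Fin Q) {u v w : Fin n}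
    (hu : part n u = 0) (hv : part n v = 1) (hw : part n w = 2)
    (h : (inst α β).wt u v + (inst α β).wt v w + (inst α β).wt u w = 0) :
    ∃ x y z, α x y = β z y := by
  rw [part_eq_zero] at hu
  rw [part_eq_one] at hv
  rw [part_eq_two] at hw
  change (upW α β u v + upW α β v u) + (upW α β v w + upW α β w v) +
    (upW α β u w + upW α β w u) = 0 at h
  rw [upW_zero_one α β hu hv, upW_eq_zero α β (u := v) (v := u) (by omega),
    upW_eq_zero α β (u := w) (v := v) (by omega), upW_eq_zero α β (u := u) (v := w) (by omega),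
    upW_eq_zero α β (u := w) (v := u) (by omega)] at h
  rcases Nat.lt_or_ge (w : ℕ) (3 * (n / 3)) with h1 | h1
  · rw [upW_one_two α β hv ⟨hw, h1⟩] at h
    refine ⟨⟨u, hu⟩, ⟨v - n / 3, by omega⟩, ⟨w - 2 * (n / 3), by omega⟩, ?_⟩
    apply Fin.ext
    omega
  · rw [upW_one_rest α β hv h1] at h
    omega

theorem inst_yes (α β : Fin (n / 3) → Fin (n / 3) → Fin Q) :
    (inst α β).Yes ↔ ∃ x y z, α x y = β z y := by
  constructor
  · rintro ⟨i, j, k, -, -, -, h1, h2, h3, h4⟩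
    have e1 : part n i ≠ part n j := (inst_thirds α β i j).1 h1
    have e2 : part n j ≠ part n k := (inst_thirds α β j k).1 h2
    have e3 : part n i ≠ part n k := (inst_thirds α β i k).1 h3
    have hij := inst_wt_comm α β i j
    have hjk := inst_wt_comm α β j k
    have hik := inst_wt_comm α β i k
    have hcase : ∀ a : Fin 3, a = 0 ∨ a = 1 ∨ a = 2 := by decide
    rcases hcase (part n i) with hi | hi | hi <;> rcases hcase (part n j) with hj | hj | hj <;>
      rcases hcase (part n k) with hk | hk | hk <;> rw [hi] at e1 e3 <;> rw [hj] at e1 e2 <;>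
      rw [hk] at e2 e3
    all_goals first
      | exact absurd rfl e1
      | exact absurd rfl e2
      | exact absurd rfl e3
      | exact inst_key α β hi hj hk (by omega)
      | exact inst_key α β hi hk hj (by omega)
      | exact inst_key α β hj hi hk (by omega)
      | exact inst_key α β hj hk hi (by omega)
      | exact inst_key α β hk hi hj (by omega)
      | exact inst_key α β hk hj hi (by omega)
  · rintro ⟨x, y, z, h⟩
    have hx := x.2
    have hy := y.2
    have hz := z.2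
    set u : Fin n := ⟨x, by omega⟩ with hu
    set v : Fin n := ⟨n / 3 + y, by omega⟩ with hv
    set w : Fin n := ⟨2 * (n / 3) + z, by omega⟩ with hw
    have hu0 : (u : ℕ) < n / 3 := hx
    have hv0 : n / 3 ≤ (v : ℕ) ∧ (v : ℕ) < 2 * (n / 3) := by
      show n / 3 ≤ n / 3 + (y : ℕ) ∧ n / 3 + (y : ℕ) < 2 * (n / 3)
      omega
    have hw0 : 2 * (n / 3) ≤ (w : ℕ) ∧ (w : ℕ) < 3 * (n / 3) := by
      show 2 * (n / 3) ≤ 2 * (n / 3) + (z : ℕ) ∧ 2 * (n / 3) + (z : ℕ) < 3 * (n / 3)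
      omega
    have pu : part n u = 0 := part_eq_zero.2 hu0
    have pv : part n v = 1 := part_eq_one.2 hv0
    have pw : part n w = 2 := part_eq_two.2 hw0.1
    refine ⟨u, v, w, ?_, ?_, ?_, ?_, ?_, ?_, ?_⟩
    · intro h1
      rw [h1] at hu0
      omega
    · intro h1
      rw [h1] at hv0
      omega
    · intro h1
      rw [h1] at hu0
      omega
    · rw [inst_thirds α β u v, pu, pv]
      decide
    · rw [inst_thirds α β v w, pv, pw]
      decide
    · rw [inst_thirds α β u w, pu, pw]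
      decide
    · show (upW α β u v + upW α β v u) + (upW α β v w + upW α β w v) +
        (upW α β u w + upW α β w u) = 0
      rw [upW_zero_one α β hu0 hv0, upW_eq_zero α β (u := v) (v := u) (by omega),
        upW_eq_zero α β (u := w) (v := v) (by omega), upW_eq_zero α β (u := u) (v := w) (by omega),
        upW_eq_zero α β (u := w) (v := u) (by omega), upW_one_two α β hv0 hw0]
      have ex : (⟨(u : ℕ), hu0⟩ : Fin (n / 3)) = x := Fin.ext rfl
      have ey : (⟨(v : ℕ) - n / 3, by omega⟩ : Fin (n / 3)) = y :=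
        Fin.ext (Nat.add_sub_cancel_left (n / 3) y)
      have ez : (⟨(w : ℕ) - 2 * (n / 3), by omega⟩ : Fin (n / 3)) = z :=
        Fin.ext (Nat.add_sub_cancel_left (2 * (n / 3)) z)
      rw [ex, ey, ez, h]
      ring

/-- The vertex of class `0` with number `x`. -/
def vx (x : Fin (n / 3)) : Fin n := ⟨x, by omega⟩

theorem part_zero_iff {n : ℕ} (v : Fin n) : part n v = 0 ↔ (v : ℕ) < n / 3 := by
  unfold part
  split_ifs with h1 h2
  · exact ⟨fun _ => h1, fun _ => rfl⟩
  · exact ⟨fun h => absurd h (by decide), fun h => absurd h h1⟩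
  · exact ⟨fun h => absurd h (by decide), fun h => absurd h h1⟩

theorem part_one_iff {n : ℕ} (v : Fin n) :
    part n v = 1 ↔ n / 3 ≤ (v : ℕ) ∧ (v : ℕ) < 2 * (n / 3) := by
  unfold part
  split_ifs with h1 h2
  · exact ⟨fun h => absurd h (by decide), fun h => absurd h1 (by omega)⟩
  · exact ⟨fun _ => ⟨by omega, h2⟩, fun _ => rfl⟩
  · exact ⟨fun h => absurd h (by decide), fun h => absurd h.2 h2⟩

theorem InA_iff {n : ℕ} (u v : Fin n) :
    InA n u v ↔ (u : ℕ) < n / 3 ∧ n / 3 ≤ (v : ℕ) ∧ (v : ℕ) < 2 * (n / 3) := by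
  unfold InA
  rw [part_zero_iff, part_one_iff]

/-- Outside `A` the weights `upW` do not depend on `α`, and on `β` only through the key. -/
theorem upW_notA (α α' β β' : Fin (n / 3) → Fin (n / 3) → Fin Q) (u v : Fin n)
    (h1 : ¬ InA n u v)
    (h : ∀ (h2 : n / 3 ≤ (u : ℕ) ∧ (u : ℕ) < 2 * (n / 3) ∧ 2 * (n / 3) ≤ (v : ℕ) ∧
      (v : ℕ) < 3 * (n / 3)), β ⟨v - 2 * (n / 3), by omega⟩ ⟨u - n / 3, by omega⟩ =
        β' ⟨v - 2 * (n / 3), by omega⟩ ⟨u - n / 3, by omega⟩) :
    upW α β u v = upW α' β' u v := by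
  have h1' : ¬ ((u : ℕ) < n / 3 ∧ n / 3 ≤ (v : ℕ) ∧ (v : ℕ) < 2 * (n / 3)) :=
    fun h2 => h1 ((InA_iff u v).2 h2)
  unfold upW
  rw [dif_neg h1', dif_neg h1']
  by_cases h2 : n / 3 ≤ (u : ℕ) ∧ (u : ℕ) < 2 * (n / 3) ∧ 2 * (n / 3) ≤ (v : ℕ) ∧
      (v : ℕ) < 3 * (n / 3)
  · rw [dif_pos h2, dif_pos h2, h h2]
  · rw [dif_neg h2, dif_neg h2]

/-- In `A` the weights `upW` do not depend on `β`, and on `α` only through its row. -/
theorem upW_A (α α' β β' : Fin (n / 3) → Fin (n / 3) → Fin Q) (u v : Fin n)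
    (h1 : (u : ℕ) < n / 3 ∧ n / 3 ≤ (v : ℕ) ∧ (v : ℕ) < 2 * (n / 3))
    (h : α ⟨u, h1.1⟩ = α' ⟨u, h1.1⟩) :
    upW α β u v = upW α' β' u v := by
  unfold upW
  rw [dif_pos h1, dif_pos h1, h]

/-- On the transposed cells of `A` the weights `upW` are `0`. -/
theorem upW_At (α β : Fin (n / 3) → Fin (n / 3) → Fin Q) (u v : Fin n)
    (h1 : (u : ℕ) < n / 3 ∧ n / 3 ≤ (v : ℕ) ∧ (v : ℕ) < 2 * (n / 3)) :
    upW α β v u = 0 := by
  unfold upW
  rw [dif_neg (by omega), dif_neg (by omega), if_neg (by omega)]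

theorem view_eq_of (α α' β β' : Fin (n / 3) → Fin (n / 3) → Fin Q) (O : Finset (Fin n))
    (h : ∀ x : Fin (n / 3), vx x ∈ O → α x = α' x) :
    view O (inst α β).wt = view O (inst α' β').wt := by
  funext u v
  unfold view
  by_cases h1 : u ∈ O ∧ InA n u v
  · rw [if_pos h1, if_pos h1]
    have h2 := (InA_iff u v).1 h1.2
    show upW α β u v + upW α β v u = upW α' β' u v + upW α' β' v u
    rw [upW_At α β u v h2, upW_At α' β' u v h2,
      upW_A α α' β β' u v h2 (h ⟨u, h2.1⟩ (by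
        have : vx ⟨(u : ℕ), h2.1⟩ = u := Fin.ext rfl
        rw [this]
        exact h1.1))]
  · rw [if_neg h1, if_neg h1]

theorem hide_eq_of (α α' β β' : Fin (n / 3) → Fin (n / 3) → Fin Q) (u v : Fin n)
    (h : ∀ (h2 : n / 3 ≤ (u : ℕ) ∧ (u : ℕ) < 2 * (n / 3) ∧ 2 * (n / 3) ≤ (v : ℕ) ∧
      (v : ℕ) < 3 * (n / 3)), β ⟨v - 2 * (n / 3), by omega⟩ ⟨u - n / 3, by omega⟩ =
        β' ⟨v - 2 * (n / 3), by omega⟩ ⟨u - n / 3, by omega⟩)
    (h' : ∀ (h2 : n / 3 ≤ (v : ℕ) ∧ (v : ℕ) < 2 * (n / 3) ∧ 2 * (n / 3) ≤ (u : ℕ) ∧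
      (u : ℕ) < 3 * (n / 3)), β ⟨u - 2 * (n / 3), by omega⟩ ⟨v - n / 3, by omega⟩ =
        β' ⟨u - 2 * (n / 3), by omega⟩ ⟨v - n / 3, by omega⟩) :
    hide (inst α β).wt u v = hide (inst α' β').wt u v := by
  unfold hide
  by_cases h1 : InA n u v ∨ InA n v u
  · rw [if_pos h1, if_pos h1]
  · rw [if_neg h1, if_neg h1]
    push Not at h1
    show upW α β u v + upW α β v u = upW α' β' u v + upW α' β' v u
    rw [upW_notA α α' β β' u v h1.1 h, upW_notA α α' β β' v u h1.2 h']

/-- Changing row `x` of `α` changes only cells of `A` in row `x`: the hidden view is the same. -/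
theorem hide_update_α (α β : Fin (n / 3) → Fin (n / 3) → Fin Q) (x : Fin (n / 3))
    (a : Fin (n / 3) → Fin Q) :
    hide (inst (Function.update α x a) β).wt = hide (inst α β).wt := by
  funext u v
  exact hide_eq_of _ _ β β u v (fun _ => rfl) (fun _ => rfl)

/-- The open rows do not depend on `β`. -/
theorem view_β (α β β' : Fin (n / 3) → Fin (n / 3) → Fin Q) (O : Finset (Fin n)) :
    view O (inst α β).wt = view O (inst α β').wt :=
  view_eq_of α α β β' O fun _ _ => rfl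

/-- The open rows do not depend on row `x` of `α` if it is not open. -/
theorem view_update_α (α β : Fin (n / 3) → Fin (n / 3) → Fin Q) (x : Fin (n / 3))
    (a : Fin (n / 3) → Fin Q) (O : Finset (Fin n)) (hx : vx x ∉ O) :
    view O (inst (Function.update α x a) β).wt = view O (inst α β).wt := by
  refine view_eq_of _ _ β β O fun y hy => ?_
  rw [Function.update_of_ne]
  rintro rfl
  exact hx hy

/-- The place `(z, y)` of `β` in the cell `(u, v)`, if there is one. -/
def keyB (n : ℕ) (u v : Fin n) : Option (Fin (n / 3) × Fin (n / 3)) :=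
  if h : n / 3 ≤ (u : ℕ) ∧ (u : ℕ) < 2 * (n / 3) ∧ 2 * (n / 3) ≤ (v : ℕ) ∧
      (v : ℕ) < 3 * (n / 3) then some (⟨v - 2 * (n / 3), by omega⟩, ⟨u - n / 3, by omega⟩)
  else if h : n / 3 ≤ (v : ℕ) ∧ (v : ℕ) < 2 * (n / 3) ∧ 2 * (n / 3) ≤ (u : ℕ) ∧
      (u : ℕ) < 3 * (n / 3) then some (⟨u - 2 * (n / 3), by omega⟩, ⟨v - n / 3, by omega⟩)
  else none

/-- A hidden weight depends on `β` only through its place in `β`. -/
theorem hide_key (α α' β β' : Fin (n / 3) → Fin (n / 3) → Fin Q) (u v : Fin n)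
    (h : ∀ z y, keyB n u v = some (z, y) → β z y = β' z y) :
    hide (inst α β).wt u v = hide (inst α' β').wt u v := by
  refine hide_eq_of α α' β β' u v (fun h2 => h _ _ ?_) (fun h2 => h _ _ ?_)
  · unfold keyB
    rw [dif_pos h2]
  · unfold keyB
    rw [dif_neg (by omega), dif_pos h2]

/-- A function of one coordinate of a uniform random point. -/
theorem expect_coord {E Ω : Type} [Fintype E] [DecidableEq E] [Fintype Ω] [Nonempty Ω] (e : E)
    (f : Ω → ℝ) : 𝔼 X : E → Ω, f (X e) = 𝔼 a, f a := by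
  rw [← Pool.Agent.Helper8.VS.resample' e (fun X : E → Ω => f (X e))]
  refine Finset.expect_congr rfl fun a _ => ?_
  simp only [Function.update_self]
  exact Fintype.expect_const _

/-- The probability that an entry has a given value. -/
theorem expect_entry [NeZero Q] (z y : Fin (n / 3)) (v : Fin Q) :
    (𝔼 β : Fin (n / 3) → Fin (n / 3) → Fin Q, (if v = β z y then (1 : ℝ) else 0)) = 1 / Q := by
  rw [expect_coord z (fun r : Fin (n / 3) → Fin Q => if v = r y then (1 : ℝ) else 0),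
    expect_coord y (fun a : Fin Q => if v = a then (1 : ℝ) else 0),
    Fintype.expect_eq_sum_div_card]
  simp

/-- The probability of a zero triangle. -/
theorem prob_yes [NeZero Q] :
    (𝔼 α : Fin (n / 3) → Fin (n / 3) → Fin Q, 𝔼 β : Fin (n / 3) → Fin (n / 3) → Fin Q,
      (if ∃ x y z, α x y = β z y then (1 : ℝ) else 0)) ≤ ((n / 3 : ℕ) : ℝ) ^ 3 / Q := by
  have h1 : (𝔼 α : Fin (n / 3) → Fin (n / 3) → Fin Q, 𝔼 β : Fin (n / 3) → Fin (n / 3) → Fin Q,
      (if ∃ x y z, α x y = β z y then (1 : ℝ) else 0)) ≤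
      𝔼 α : Fin (n / 3) → Fin (n / 3) → Fin Q, 𝔼 β : Fin (n / 3) → Fin (n / 3) → Fin Q,
        ∑ x, ∑ y, ∑ z, (if α x y = β z y then (1 : ℝ) else 0) := by
    refine Finset.expect_le_expect fun α _ => Finset.expect_le_expect fun β _ => ?_
    have h0 : ∀ x y z, (0 : ℝ) ≤ (if α x y = β z y then (1 : ℝ) else 0) := fun x y z => by
      split_ifs <;> norm_num
    split_ifs with h
    · obtain ⟨x, y, z, h⟩ := h
      calc (1 : ℝ) = (if α x y = β z y then (1 : ℝ) else 0) := by rw [if_pos h]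
        _ ≤ ∑ z, (if α x y = β z y then (1 : ℝ) else 0) :=
          Finset.single_le_sum (f := fun z => if α x y = β z y then (1 : ℝ) else 0)
            (fun z _ => h0 x y z) (Finset.mem_univ z)
        _ ≤ ∑ y, ∑ z, (if α x y = β z y then (1 : ℝ) else 0) :=
          Finset.single_le_sum (f := fun y => ∑ z, if α x y = β z y then (1 : ℝ) else 0)
            (fun y _ => Finset.sum_nonneg fun z _ => h0 x y z) (Finset.mem_univ y)
        _ ≤ ∑ x, ∑ y, ∑ z, (if α x y = β z y then (1 : ℝ) else 0) :=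
          Finset.single_le_sum (f := fun x => ∑ y, ∑ z, if α x y = β z y then (1 : ℝ) else 0)
            (fun x _ => Finset.sum_nonneg fun y _ => Finset.sum_nonneg fun z _ => h0 x y z)
            (Finset.mem_univ x)
    · exact Finset.sum_nonneg fun x _ => Finset.sum_nonneg fun y _ =>
        Finset.sum_nonneg fun z _ => h0 x y z
  refine h1.trans (le_of_eq ?_)
  have h2 : ∀ α : Fin (n / 3) → Fin (n / 3) → Fin Q,
      (𝔼 β : Fin (n / 3) → Fin (n / 3) → Fin Q,
        ∑ x, ∑ y, ∑ z, (if α x y = β z y then (1 : ℝ) else 0)) = ((n / 3 : ℕ) : ℝ) ^ 3 / Q := by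
    intro α
    rw [Finset.expect_sum_comm]
    have h3 : ∀ x, (𝔼 β : Fin (n / 3) → Fin (n / 3) → Fin Q,
        ∑ y, ∑ z, (if α x y = β z y then (1 : ℝ) else 0)) = ((n / 3 : ℕ) : ℝ) ^ 2 / Q := by
      intro x
      rw [Finset.expect_sum_comm]
      have h4 : ∀ y, (𝔼 β : Fin (n / 3) → Fin (n / 3) → Fin Q,
          ∑ z, (if α x y = β z y then (1 : ℝ) else 0)) = ((n / 3 : ℕ) : ℝ) / Q := by
        intro y
        rw [Finset.expect_sum_comm]
        simp only [expect_entry, Finset.sum_const, Finset.card_univ, Fintype.card_fin,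
          nsmul_eq_mul]
        ring
      simp only [h4, Finset.sum_const, Finset.card_univ, Fintype.card_fin, nsmul_eq_mul]
      ring
    simp only [h3, Finset.sum_const, Finset.card_univ, Fintype.card_fin, nsmul_eq_mul]
    ring
  simp only [h2]
  exact Fintype.expect_const _

end Pool.Agent.Helper5.HA
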