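import Pool.Agent.Helper5.HA.Main
import Pool.Agent.Helper50.HA.Numeric

/-!
# The lower bound for phased machines
-/

set_option autoImplicit false

namespace Pool.Agent.Helper5.HA

open Pool.Agent.Helper22.ETModel

theorem phasedLower : PhasedLower := by
  intro n P q r R S _ hn hP hq M hM
  haveI : Nonempty S := ⟨M.init fun _ => false⟩
  have hn0 : n ≠ 0 := by omega
  haveI : NeZero (n ^ 4) := ⟨pow_ne_zero 4 hn0⟩
  exact Pool.Agent.Helper50.HA.numeric n P q r (Fintype.card S) hn hP hq Fintype.card_pos
    (main_ineq (Q := n ^ 4) hn (Nat.pow_le_pow_right (by omega) (by norm_num)) M P hP hM)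

end Pool.Agent.Helper5.HA
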