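import Pool.Agent.Helper5.HA.Defs

/-!
# The statements
-/

set_option autoImplicit false

namespace Pool.Agent.Helper5.HA

open Pool.Agent.Helper22.ETModel

/-- Lower bound for phased machines. -/
def PhasedLower : Prop :=
  ∀ (n P q r R : ℕ) (S : Type) [Fintype S], 3 ≤ n → 1 ≤ P → 1 ≤ q →
    ∀ M : Phased n S q r R, M.Decides P →
      (n : ℝ) ^ 3 ≤ 2 ^ 12 * q * P * (n * (Real.logb 2 (Fintype.card S) + Real.logb 2 n) +
        r * Real.logb 2 n)

/-- Phased machines with two memory states, for all `q` and `s`: `P = O(n ^ 2 / (q s))` phases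
with `q` open rows and `2 n s` probes. -/
def PhasedUpper : Prop :=
  ∀ n q s : ℕ, 1 ≤ q → q ≤ n → 1 ≤ s → s ≤ n → ∃ (P : ℕ) (M : Phased n Bool q (2 * n * s) 0),
    M.Decides P ∧ P * (q * s) ≤ 4 * n ^ 2

/-- Lower bound for multihead machines. -/
def HeadsLower : Prop :=
  ∀ (n ℓ k R T : ℕ) (S Γ : Type) [Fintype S] (enc : Bool → ℤ → ℕ → Γ) (blank : Γ), 3 ≤ n →
    1 ≤ ℓ → 1 ≤ k → n * ℓ ≤ T → ∀ M : Heads S Γ k R, M.Decides n ℓ enc blank T →
      (ℓ : ℝ) * (n : ℝ) ^ 3 ≤ 2 ^ 18 * k * T *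
        (Real.logb 2 (Fintype.card S) + k * Real.logb 2 ((n : ℝ) * ℓ))

end Pool.Agent.Helper5.HA
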