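import Pool.Agent.Helper5.HA.Run
import Pool.Agent.Helper5.HA.Statement
import Pool.Agent.Helper50.HA.TwoParty
import Pool.Agent.Helper8.VS.Info

/-!
# The lower bound for phased machines: assembly
-/

set_option autoImplicit false

open Finset
open scoped BigOperators

namespace Pool.Agent.Helper5.HA

open Pool.Agent.Helper22.ETModel Pool.Agent.Helper50.HA
open Pool.Agent.Helper8.VS (resample' ind ind_nonneg ind_le_one ind_true ind_false)

section

variable {n Q q r R : ℕ} {S : Type}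

/-- The indicator of the output no. -/
noncomputable def no (M : Phased n S q r R) (P : ℕ) (ρ : Fin R → Bool)
    (α β : Fin (n / 3) → Fin (n / 3) → Fin Q) : ℝ :=
  ind (M.out ρ (M.run (inst α β).wt ρ P) = false)

/-- The row with a planted zero triangle. -/
def pl (α β : Fin (n / 3) → Fin (n / 3) → Fin Q) (x y z : Fin (n / 3)) :
    Fin (n / 3) → Fin (n / 3) → Fin Q :=
  Function.update α x (Function.update (α x) y (β z y))

theorem expect_both [NeZero Q] (x z : Fin (n / 3))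
    (F : (Fin (n / 3) → Fin (n / 3) → Fin Q) → (Fin (n / 3) → Fin (n / 3) → Fin Q) → ℝ) :
    𝔼 α, 𝔼 β, F α β =
      𝔼 α : Fin (n / 3) → Fin (n / 3) → Fin Q, 𝔼 β : Fin (n / 3) → Fin (n / 3) → Fin Q,
        𝔼 a : Fin (n / 3) → Fin Q, 𝔼 b : Fin (n / 3) → Fin Q,
          F (Function.update α x a) (Function.update β z b) := by
  have h1 : 𝔼 α, 𝔼 β, F α β = 𝔼 a : Fin (n / 3) → Fin Q,
      𝔼 α : Fin (n / 3) → Fin (n / 3) → Fin Q, 𝔼 β, F (Function.update α x a) β :=
    (resample' (E := Fin (n / 3)) (Ω := Fin (n / 3) → Fin Q) x (fun α => 𝔼 β, F α β)).symm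
  have h2 : ∀ α, 𝔼 β, F α β = 𝔼 b : Fin (n / 3) → Fin Q,
      𝔼 β : Fin (n / 3) → Fin (n / 3) → Fin Q, F α (Function.update β z b) := fun α =>
    (resample' (E := Fin (n / 3)) (Ω := Fin (n / 3) → Fin Q) z (fun β => F α β)).symm
  rw [h1, Finset.expect_comm]
  refine Finset.expect_congr rfl fun α _ => ?_
  have h3 : ∀ a : Fin (n / 3) → Fin Q, 𝔼 β, F (Function.update α x a) β =
      𝔼 β : Fin (n / 3) → Fin (n / 3) → Fin Q, 𝔼 b : Fin (n / 3) → Fin Q,
        F (Function.update α x a) (Function.update β z b) := by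
    intro a
    rw [h2, Finset.expect_comm]
  simp only [h3]
  rw [Finset.expect_comm]

/-- The bound for one pair of vertices. -/
theorem pair_bound [Fintype S] [Nonempty S] [NeZero Q] (hn : 3 ≤ n) (M : Phased n S q r R)
    (P : ℕ) (ρ : Fin R → Bool) (x z : Fin (n / 3)) :
    ∑ y, (𝔼 α : Fin (n / 3) → Fin (n / 3) → Fin Q, 𝔼 β : Fin (n / 3) → Fin (n / 3) → Fin Q,
      (no M P ρ α β - no M P ρ (pl α β x y z) β)) ≤
      2 * 𝔼 α : Fin (n / 3) → Fin (n / 3) → Fin Q, 𝔼 β : Fin (n / 3) → Fin (n / 3) → Fin Q,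
        (cost (tr M P ρ x z α β) + Real.log 3) := by
  classical
  have : Nonempty (Fin (n / 3)) := ⟨x⟩
  have : Nonempty (Fin Q) := ⟨⟨0, Nat.pos_of_ne_zero (NeZero.ne Q)⟩⟩
  have hk := kraft (Y := Fin (n / 3)) (V := Fin Q) (S := S) P
  set W : Tr (Fin (n / 3)) (Fin Q) S P → ℝ := fun l => Real.exp (-cost l) / 3 with hW
  have hW0 : ∀ l, 0 < W l := fun l => by simp only [hW]; positivity
  have hW1 : ∑ l, W l ≤ 1 := by
    simp only [hW]
    rw [← sum_div]
    linarith
  have hlog : ∀ l, -Real.log (W l) = cost l + Real.log 3 := by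
    intro l
    simp only [hW]
    rw [Real.log_div (Real.exp_pos _).ne' (by norm_num), Real.log_exp]
    ring
  have hL : ∑ y, (𝔼 α : Fin (n / 3) → Fin (n / 3) → Fin Q,
      𝔼 β : Fin (n / 3) → Fin (n / 3) → Fin Q,
        (no M P ρ α β - no M P ρ (pl α β x y z) β)) =
      𝔼 α : Fin (n / 3) → Fin (n / 3) → Fin Q, 𝔼 β : Fin (n / 3) → Fin (n / 3) → Fin Q,
        ∑ y, (no M P ρ α β - no M P ρ (pl α β x y z) β) := by
    rw [← Finset.expect_sum_comm]
    refine Finset.expect_congr rfl fun α _ => ?_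
    rw [← Finset.expect_sum_comm]
  rw [hL, expect_both x z (fun α β => ∑ y, (no M P ρ α β - no M P ρ (pl α β x y z) β)),
    expect_both x z (fun α β => cost (tr M P ρ x z α β) + Real.log 3), Finset.mul_expect]
  refine Finset.expect_le_expect fun α _ => ?_
  rw [Finset.mul_expect]
  refine Finset.expect_le_expect fun β _ => ?_
  have key := two_party_weight
    (fun a b : Fin (n / 3) → Fin Q => tr M P ρ x z (Function.update α x a) (Function.update β z b))
    (fun a b a' b' h => tr_rect M P ρ x z α β a b a' b' h) W hW0 hW1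
    (fun l => ind (l.1 = false)) (fun l => ind_nonneg _) (fun l => ind_le_one _)
  simp only [hlog] at key
  refine le_trans (le_of_eq ?_) key
  rw [← Finset.expect_sum_comm]
  refine Finset.expect_congr rfl fun a _ => ?_
  rw [← Finset.expect_sum_comm]
  refine Finset.expect_congr rfl fun b _ => ?_
  refine Finset.sum_congr rfl fun y _ => ?_
  have hpl : pl (Function.update α x a) (Function.update β z b) x y z =
      Function.update α x (Function.update a y (b y)) := by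
    unfold pl
    rw [Function.update_idem, Function.update_self, Function.update_self]
  rw [hpl]
  rfl

/-- The sum over all triangles, for fixed random bits. -/
theorem total_bound [Fintype S] [Nonempty S] [NeZero Q] (hn : 3 ≤ n) (M : Phased n S q r R)
    (P : ℕ) (hP : 1 ≤ P) (ρ : Fin R → Bool) :
    ∑ x, ∑ z, ∑ y, (𝔼 α : Fin (n / 3) → Fin (n / 3) → Fin Q,
      𝔼 β : Fin (n / 3) → Fin (n / 3) → Fin Q,
      (no M P ρ α β - no M P ρ (pl α β x y z) β)) ≤
      2 * (((n / 3 : ℕ) : ℝ) ^ 2 * (Real.log 2 + Real.log 3) +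
        P * (q * (((n / 3 : ℕ) : ℝ) * Real.log (2 * P * (Fintype.card S : ℝ) ^ 2) +
          r * Real.log (2 * ((n / 3 : ℕ) : ℝ) * Q)))) := by
  have hQ : 1 ≤ Q := Nat.pos_of_ne_zero (NeZero.ne Q)
  have h1 : ∑ x, ∑ z, ∑ y, (𝔼 α : Fin (n / 3) → Fin (n / 3) → Fin Q,
      𝔼 β : Fin (n / 3) → Fin (n / 3) → Fin Q,
      (no M P ρ α β - no M P ρ (pl α β x y z) β)) ≤
      ∑ x, ∑ z, 2 * 𝔼 α : Fin (n / 3) → Fin (n / 3) → Fin Q,
        𝔼 β : Fin (n / 3) → Fin (n / 3) → Fin Q,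
        (cost (tr M P ρ x z α β) + Real.log 3) :=
    sum_le_sum fun x _ => sum_le_sum fun z _ => pair_bound hn M P ρ x z
  have h2 : ∑ x, ∑ z, 2 * 𝔼 α : Fin (n / 3) → Fin (n / 3) → Fin Q,
        𝔼 β : Fin (n / 3) → Fin (n / 3) → Fin Q,
        (cost (tr M P ρ x z α β) + Real.log 3) =
      2 * 𝔼 α : Fin (n / 3) → Fin (n / 3) → Fin Q,
        𝔼 β : Fin (n / 3) → Fin (n / 3) → Fin Q,
        ∑ x, ∑ z, (cost (tr M P ρ x z α β) + Real.log 3) := by
    simp only [← mul_sum]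
    congr 1
    simp only [Finset.expect_sum_comm]
  have h3 : 𝔼 α : Fin (n / 3) → Fin (n / 3) → Fin Q,
        𝔼 β : Fin (n / 3) → Fin (n / 3) → Fin Q,
        ∑ x, ∑ z, (cost (tr M P ρ x z α β) + Real.log 3) ≤
      ((n / 3 : ℕ) : ℝ) ^ 2 * (Real.log 2 + Real.log 3) +
        P * (q * (((n / 3 : ℕ) : ℝ) * Real.log (2 * P * (Fintype.card S : ℝ) ^ 2) +
          r * Real.log (2 * ((n / 3 : ℕ) : ℝ) * Q))) := by
    have : Nonempty (Fin Q) := ⟨⟨0, hQ⟩⟩
    refine Finset.expect_le Finset.univ_nonempty fun α _ =>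
      Finset.expect_le Finset.univ_nonempty fun β _ => ?_
    have h4 := sum_cost M P ρ α β hn hQ hP
    simp only [sum_add_distrib, sum_const, card_univ, Fintype.card_fin, nsmul_eq_mul] at h4 ⊢
    linarith
  rw [h2] at h1
  linarith

theorem expect_ind (p : (Fin R → Bool) → Prop) :
    𝔼 ρ : Fin R → Bool, ind (p ρ) = ({ρ | p ρ}.ncard : ℝ) / 2 ^ R := by
  classical
  rw [Fintype.expect_eq_sum_div_card, Fintype.card_fun, Fintype.card_bool, Fintype.card_fin]
  have h1 : ∑ ρ : Fin R → Bool, ind (p ρ) = ((univ.filter fun ρ => p ρ).card : ℝ) := by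
    rw [card_filter]
    push_cast
    refine sum_congr rfl fun ρ _ => ?_
    unfold ind
    congr
  have h2 : {ρ | p ρ}.ncard = (univ.filter fun ρ => p ρ).card := by
    rw [← Set.ncard_coe_finset]
    congr 1
    ext ρ
    simp
  rw [h1, h2]
  push_cast
  rfl

/-- The average over the random bits and the instances. -/
theorem avg_lower [NeZero Q] (hn : 3 ≤ n) (hQn : Q ≤ n ^ 300) (M : Phased n S q r R) (P : ℕ)
    (hM : M.Decides P) :
    ((n / 3 : ℕ) : ℝ) ^ 3 * (1 / 3 - ((n / 3 : ℕ) : ℝ) ^ 3 / Q) ≤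
      𝔼 ρ : Fin R → Bool, ∑ x, ∑ z, ∑ y, (𝔼 α : Fin (n / 3) → Fin (n / 3) → Fin Q,
        𝔼 β : Fin (n / 3) → Fin (n / 3) → Fin Q,
        (no M P ρ α β - no M P ρ (pl α β x y z) β)) := by
  classical
  have hR : (0 : ℝ) < 2 ^ R := by positivity
  have : Nonempty (Fin Q) := ⟨⟨0, Nat.pos_of_ne_zero (NeZero.ne Q)⟩⟩
  -- no-instances
  have hno : ∀ α β : Fin (n / 3) → Fin (n / 3) → Fin Q,
      2 / 3 - (if ∃ x y z, α x y = β z y then (1 : ℝ) else 0) ≤ 𝔼 ρ, no M P ρ α β := by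
    intro α β
    by_cases hy : ∃ x y z, α x y = β z y
    · rw [if_pos hy]
      have : 0 ≤ 𝔼 ρ, no M P ρ α β := Finset.expect_nonneg fun ρ _ => ind_nonneg _
      linarith
    · rw [if_neg hy]
      have h1 := hM (inst α β) (inst_valid hQn (by omega) α β) (inst_thirds α β)
      have hY : ¬ (inst α β).Yes := fun h => hy ((inst_yes α β).1 h)
      have h2 : {ρ : Fin R → Bool | M.out ρ (M.run (inst α β).wt ρ P) = true ↔ (inst α β).Yes} =
          {ρ | M.out ρ (M.run (inst α β).wt ρ P) = false} := by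
        ext ρ
        simp only [Set.mem_ofPred_eq, hY, iff_false, Bool.not_eq_true]
      rw [h2] at h1
      unfold no
      rw [expect_ind, sub_zero, le_div_iff₀ hR]
      have h3 : ((2 * 2 ^ R : ℕ) : ℝ) ≤ ((3 * {ρ : Fin R → Bool |
        M.out ρ (M.run (inst α β).wt ρ P) = false}.ncard : ℕ) : ℝ) := by exact_mod_cast h1
      push_cast at h3
      linarith
  -- planted instances
  have hpl : ∀ (α β : Fin (n / 3) → Fin (n / 3) → Fin Q) (x y z : Fin (n / 3)),
      𝔼 ρ, no M P ρ (pl α β x y z) β ≤ 1 / 3 := by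
    intro α β x y z
    have hY : (inst (pl α β x y z) β).Yes := by
      rw [inst_yes]
      refine ⟨x, y, z, ?_⟩
      unfold pl
      rw [Function.update_self, Function.update_self]
    have h1 := hM (inst (pl α β x y z) β) (inst_valid hQn (by omega) _ β) (inst_thirds _ β)
    have h2 : {ρ : Fin R → Bool | M.out ρ (M.run (inst (pl α β x y z) β).wt ρ P) = true ↔
        (inst (pl α β x y z) β).Yes} =
        {ρ | M.out ρ (M.run (inst (pl α β x y z) β).wt ρ P) = true} := by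
      ext ρ
      simp only [Set.mem_ofPred_eq, hY, iff_true]
    rw [h2] at h1
    have h3 : ∀ ρ : Fin R → Bool, no M P ρ (pl α β x y z) β =
        1 - ind (M.out ρ (M.run (inst (pl α β x y z) β).wt ρ P) = true) := by
      intro ρ
      unfold no
      cases h : M.out ρ (M.run (inst (pl α β x y z) β).wt ρ P)
      · rw [ind_true rfl, ind_false (by simp)]; ring
      · rw [ind_false (by simp), ind_true rfl]; ring
    simp only [h3]
    rw [Finset.expect_sub_distrib, expect_ind, Finset.expect_const Finset.univ_nonempty]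
    have h4 : ((2 * 2 ^ R : ℕ) : ℝ) ≤ ((3 * {ρ : Fin R → Bool |
        M.out ρ (M.run (inst (pl α β x y z) β).wt ρ P) = true}.ncard : ℕ) : ℝ) := by
      exact_mod_cast h1
    push_cast at h4
    have h5 : (2 / 3 : ℝ) ≤ ({ρ : Fin R → Bool |
        M.out ρ (M.run (inst (pl α β x y z) β).wt ρ P) = true}.ncard : ℝ) / 2 ^ R := by
      rw [le_div_iff₀ hR]; linarith
    linarith
  -- one triangle
  have hone : ∀ x y z : Fin (n / 3), 1 / 3 - ((n / 3 : ℕ) : ℝ) ^ 3 / Q ≤
      𝔼 ρ : Fin R → Bool, 𝔼 α : Fin (n / 3) → Fin (n / 3) → Fin Q,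
        𝔼 β : Fin (n / 3) → Fin (n / 3) → Fin Q,
        (no M P ρ α β - no M P ρ (pl α β x y z) β) := by
    intro x y z
    have h1 : 𝔼 ρ : Fin R → Bool, 𝔼 α : Fin (n / 3) → Fin (n / 3) → Fin Q,
        𝔼 β : Fin (n / 3) → Fin (n / 3) → Fin Q,
        (no M P ρ α β - no M P ρ (pl α β x y z) β) =
        𝔼 α : Fin (n / 3) → Fin (n / 3) → Fin Q, 𝔼 β : Fin (n / 3) → Fin (n / 3) → Fin Q,
          ((𝔼 ρ, no M P ρ α β) - 𝔼 ρ, no M P ρ (pl α β x y z) β) := by
      rw [Finset.expect_comm]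
      refine Finset.expect_congr rfl fun α _ => ?_
      rw [Finset.expect_comm]
      refine Finset.expect_congr rfl fun β _ => ?_
      rw [Finset.expect_sub_distrib]
    rw [h1]
    have h2 : 𝔼 α : Fin (n / 3) → Fin (n / 3) → Fin Q, 𝔼 β : Fin (n / 3) → Fin (n / 3) → Fin Q,
          ((2 / 3 - (if ∃ x y z, α x y = β z y then (1 : ℝ) else 0)) - 1 / 3) ≤
        𝔼 α : Fin (n / 3) → Fin (n / 3) → Fin Q, 𝔼 β : Fin (n / 3) → Fin (n / 3) → Fin Q,
          ((𝔼 ρ, no M P ρ α β) - 𝔼 ρ, no M P ρ (pl α β x y z) β) :=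
      Finset.expect_le_expect fun α _ => Finset.expect_le_expect fun β _ =>
        sub_le_sub (hno α β) (hpl α β x y z)
    refine le_trans ?_ h2
    simp only [Finset.expect_sub_distrib, Finset.expect_const Finset.univ_nonempty]
    have h3 := prob_yes (n := n) (Q := Q)
    linarith
  have hswap : 𝔼 ρ : Fin R → Bool, ∑ x, ∑ z, ∑ y, (𝔼 α : Fin (n / 3) → Fin (n / 3) → Fin Q,
        𝔼 β : Fin (n / 3) → Fin (n / 3) → Fin Q,
        (no M P ρ α β - no M P ρ (pl α β x y z) β)) =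
      ∑ x, ∑ z, ∑ y, 𝔼 ρ : Fin R → Bool, (𝔼 α : Fin (n / 3) → Fin (n / 3) → Fin Q,
        𝔼 β : Fin (n / 3) → Fin (n / 3) → Fin Q,
        (no M P ρ α β - no M P ρ (pl α β x y z) β)) := by
    rw [Finset.expect_sum_comm]
    refine sum_congr rfl fun x _ => ?_
    rw [Finset.expect_sum_comm]
    refine sum_congr rfl fun z _ => ?_
    rw [Finset.expect_sum_comm]
  rw [hswap]
  calc ((n / 3 : ℕ) : ℝ) ^ 3 * (1 / 3 - ((n / 3 : ℕ) : ℝ) ^ 3 / Q)
      = ∑ _x : Fin (n / 3), ∑ _z : Fin (n / 3), ∑ _y : Fin (n / 3),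
          (1 / 3 - ((n / 3 : ℕ) : ℝ) ^ 3 / Q) := by
        simp only [sum_const, card_univ, Fintype.card_fin, nsmul_eq_mul]
        ring
    _ ≤ _ := sum_le_sum fun x _ => sum_le_sum fun z _ => sum_le_sum fun y _ => hone x y z

/-- The main inequality. -/
theorem main_ineq [Fintype S] [Nonempty S] [NeZero Q] (hn : 3 ≤ n) (hQn : Q ≤ n ^ 300)
    (M : Phased n S q r R) (P : ℕ) (hP : 1 ≤ P) (hM : M.Decides P) :
    ((n / 3 : ℕ) : ℝ) ^ 3 * (1 / 3 - ((n / 3 : ℕ) : ℝ) ^ 3 / Q) ≤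
      2 * (((n / 3 : ℕ) : ℝ) ^ 2 * (Real.log 2 + Real.log 3) +
        P * (q * (((n / 3 : ℕ) : ℝ) * Real.log (2 * P * (Fintype.card S : ℝ) ^ 2) +
          r * Real.log (2 * ((n / 3 : ℕ) : ℝ) * Q)))) :=
  (avg_lower hn hQn M P hM).trans
    (Finset.expect_le Finset.univ_nonempty fun ρ _ => total_bound hn M P hP ρ)

end

end Pool.Agent.Helper5.HA
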