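import Mathlib
import Pool.Agent.Helper22.ETModel

/-!
# Exact Triangle on multihead machines

Multihead machines on a read-only input tape that contains the upper triangular part of the
matrix of the instance, row by row, every entry in an arbitrary encoding by `ℓ` symbols.
-/

set_option autoImplicit false

namespace Pool.Agent.Helper5.HA

open Pool.Agent.Helper22.ETModel

/-- The class of a vertex: first third, second third, rest. -/
def part (n : ℕ) (v : Fin n) : Fin 3 :=
  if (v : ℕ) < n / 3 then 0 else if (v : ℕ) < 2 * (n / 3) then 1 else 2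

/-- The instance is complete tripartite with the classes `part`. -/
def Thirds {n : ℕ} (I : Inst n) : Prop :=
  ∀ u v : Fin n, I.flag u v = true ↔ part n u ≠ part n v

/-- The input tape: entry `(i, j)` of the `n × n` array occupies the `ℓ` positions from
`(i * n + j) * ℓ` on; it contains the encoding of the flag and the weight if `i < j`, and is blank
on and below the diagonal; the rest of the tape is blank. -/
def tape {n ℓ : ℕ} {Γ : Type} (enc : Bool → ℤ → ℕ → Γ) (blank : Γ) (I : Inst n) (p : ℕ) : Γ :=
  if h : p / (n * ℓ) < n ∧ p / ℓ % n < n then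
    if (p / (n * ℓ)) < p / ℓ % n then
      enc (I.flag ⟨p / (n * ℓ), h.1⟩ ⟨p / ℓ % n, h.2⟩) (I.wt ⟨p / (n * ℓ), h.1⟩ ⟨p / ℓ % n, h.2⟩)
        (p % ℓ)
    else blank
  else blank

/-- A head moves one position to the left, stays, or moves one position to the right. -/
def move (p : ℕ) (d : Fin 3) : ℕ := if d = 0 then p - 1 else if d = 1 then p else p + 1

/-- A randomized machine with `k` read-only heads, memory states `S` and `R` random bits. The next
state and the moves of the heads are arbitrary functions of the random bits, the time, the state,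
the positions of the heads and the symbols under the heads. -/
structure Heads (S Γ : Type) (k R : ℕ) where
  init : (Fin R → Bool) → S
  next : (Fin R → Bool) → ℕ → S → (Fin k → ℕ) → (Fin k → Γ) → S × (Fin k → Fin 3)
  out : (Fin R → Bool) → S → Bool

/-- State and head positions after `t` steps on the tape `τ`. All heads start at position 0. -/
def Heads.run {S Γ : Type} {k R : ℕ} (M : Heads S Γ k R) (τ : ℕ → Γ) (ρ : Fin R → Bool) :
    ℕ → S × (Fin k → ℕ)
  | 0 => (M.init ρ, fun _ => 0)
  | t + 1 =>
    ((M.next ρ t (M.run τ ρ t).1 (M.run τ ρ t).2 fun i => τ ((M.run τ ρ t).2 i)).1,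
      fun i => move ((M.run τ ρ t).2 i)
        ((M.next ρ t (M.run τ ρ t).1 (M.run τ ρ t).2 fun i => τ ((M.run τ ρ t).2 i)).2 i))

/-- The machine decides, in `T` steps and with bounded error, Exact Triangle on the valid
instances that are complete tripartite with the classes `part`, given on the tape. -/
def Heads.Decides {S Γ : Type} {k R : ℕ} (M : Heads S Γ k R) (n ℓ : ℕ)
    (enc : Bool → ℤ → ℕ → Γ) (blank : Γ) (T : ℕ) : Prop :=
  ∀ I : Inst n, I.Valid → Thirds I → 2 * 2 ^ R ≤ 3 * {ρ : Fin R → Bool |
    M.out ρ (M.run (tape (ℓ := ℓ) enc blank I) ρ T).1 = true ↔ I.Yes}.ncard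

end Pool.Agent.Helper5.HA
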