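import Mathlib

/-!
# Transcripts: Kraft's inequality and the entropy bound

`Tr Y V S P` are the possible transcripts: an output bit, and for every phase either nothing, or
the state at the beginning, the state at the end, and the map of the values read in
this phase.
-/

set_option autoImplicit false

open Finset
open scoped BigOperators

namespace Pool.Agent.Helper5.HA

/-- Transcripts. -/
abbrev Tr (Y V S : Type) (P : ℕ) : Type := Bool × (Fin P → Option (S × S × (Y → Option V)))

variable {Y V S : Type} [Fintype Y] [Fintype V] [Fintype S]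

/-- The number of places where a map into options is defined. -/
def dom (g : Y → Option V) : ℕ := (univ.filter fun y => (g y).isSome = true).card

/-- The cost of one phase: nothing, or the two states, the number of the phase, and the values. -/
noncomputable def cost1 (P : ℕ) : Option (S × S × (Y → Option V)) → ℝ
  | none => 0
  | some x => Real.log (2 * P * (Fintype.card S : ℝ) ^ 2) +
      dom x.2.2 * Real.log (2 * Fintype.card Y * Fintype.card V)

/-- The cost of a transcript. -/
noncomputable def cost {P : ℕ} (l : Tr Y V S P) : ℝ := Real.log 2 + ∑ p, cost1 P (l.2 p)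

/-- Maps into options: `∑ g, (1 / (2 |Y| |V|)) ^ dom g = (1 + 1 / (2 |Y|)) ^ |Y| ≤ 2`. -/
theorem sum_dom [DecidableEq Y] [Nonempty Y] [Nonempty V] :
    ∑ g : Y → Option V,
      Real.exp (-(dom g * Real.log (2 * Fintype.card Y * Fintype.card V))) ≤ 2 := by
  classical
  have hY : (0 : ℝ) < Fintype.card Y := by exact_mod_cast Fintype.card_pos
  have hV : (0 : ℝ) < Fintype.card V := by exact_mod_cast Fintype.card_pos
  set q : ℝ := Real.exp (-Real.log (2 * Fintype.card Y * Fintype.card V)) with hq
  have hq' : q = 1 / (2 * Fintype.card Y * Fintype.card V) := by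
    rw [hq, Real.exp_neg, Real.exp_log (by positivity), one_div]
  have h1 : ∀ g : Y → Option V,
      Real.exp (-(dom g * Real.log (2 * Fintype.card Y * Fintype.card V))) =
        ∏ y, (if (g y).isSome = true then q else 1) := by
    intro g
    rw [Finset.prod_ite, Finset.prod_const, Finset.prod_const_one, mul_one]
    change _ = q ^ dom g
    rw [hq, ← Real.exp_nat_mul]
    congr 1
    ring
  rw [Finset.sum_congr rfl (fun g _ => h1 g)]
  have h2 : ∏ _y : Y, ∑ o : Option V, (if o.isSome = true then q else 1) =
      ∑ g : Y → Option V, ∏ y, (if (g y).isSome = true then q else 1) := by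
    rw [Finset.prod_univ_sum, Fintype.piFinset_univ]
  rw [← h2]
  have h3 : ∑ o : Option V, (if o.isSome = true then q else (1 : ℝ)) =
      1 + 1 / (2 * Fintype.card Y) := by
    rw [Fintype.sum_option]
    simp only [Option.isSome_none, Option.isSome_some, Bool.false_eq_true, if_false, if_true,
      Finset.sum_const, Finset.card_univ, nsmul_eq_mul]
    rw [hq']
    field_simp
  rw [h3, Finset.prod_const, Finset.card_univ]
  have h4 : (1 + 1 / (2 * (Fintype.card Y : ℝ))) ≤ Real.exp (1 / (2 * (Fintype.card Y : ℝ))) := by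
    have := Real.add_one_le_exp (1 / (2 * (Fintype.card Y : ℝ)))
    linarith
  calc (1 + 1 / (2 * (Fintype.card Y : ℝ))) ^ Fintype.card Y
      ≤ Real.exp (1 / (2 * (Fintype.card Y : ℝ))) ^ Fintype.card Y :=
        pow_le_pow_left₀ (by positivity) h4 _
    _ = Real.exp (1 / 2) := by
        rw [← Real.exp_nat_mul]
        congr 1
        field_simp
    _ ≤ 2 := by
        have h5 : Real.exp (1 / 2) ^ 2 = Real.exp 1 := by
          rw [← Real.exp_nat_mul]
          norm_num
        have h6 := Real.exp_one_lt_d9
        have h7 : (0 : ℝ) < Real.exp (1 / 2) := Real.exp_pos _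
        nlinarith

/-- Kraft's inequality: the sum is at most `(1 + 1 / P) ^ P ≤ 3`. -/
theorem kraft (P : ℕ) [DecidableEq Y] [Nonempty Y] [Nonempty V] [Nonempty S] :
    ∑ l : Tr Y V S P, Real.exp (-cost l) ≤ 3 := by
  classical
  have hS : (0 : ℝ) < Fintype.card S := by exact_mod_cast Fintype.card_pos
  have h1 : ∀ l : Tr Y V S P, Real.exp (-cost l) =
      (1 / 2) * ∏ p, Real.exp (-cost1 P (l.2 p)) := by
    intro l
    unfold cost
    rw [neg_add, Real.exp_add, Real.exp_neg, Real.exp_log (by norm_num), ← Finset.sum_neg_distrib,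
      Real.exp_sum]
    norm_num
  rw [Finset.sum_congr rfl (fun l _ => h1 l), Fintype.sum_prod_type]
  simp only [Finset.sum_const, Finset.card_univ, Fintype.card_bool, nsmul_eq_mul]
  rw [← Finset.mul_sum]
  have h2 : ∏ _p : Fin P, ∑ o : Option (S × S × (Y → Option V)), Real.exp (-cost1 P o) =
      ∑ f : Fin P → Option (S × S × (Y → Option V)), ∏ p, Real.exp (-cost1 P (f p)) := by
    rw [Finset.prod_univ_sum, Fintype.piFinset_univ]
  rw [← h2, Finset.prod_const, Finset.card_univ, Fintype.card_fin]
  rcases Nat.eq_zero_or_pos P with hP | hP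
  · subst hP
    norm_num
  have hP' : (0 : ℝ) < P := by exact_mod_cast hP
  have h3 : ∑ o : Option (S × S × (Y → Option V)), Real.exp (-cost1 P o) ≤ 1 + 1 / P := by
    rw [Fintype.sum_option, Fintype.sum_prod_type]
    simp only [Fintype.sum_prod_type, cost1, neg_add, Real.exp_add, neg_zero, Real.exp_zero]
    simp only [← Finset.mul_sum, Finset.sum_const, Finset.card_univ, nsmul_eq_mul]
    rw [Real.exp_neg (Real.log _), Real.exp_log (by positivity)]
    have h4 := sum_dom (Y := Y) (V := V)
    generalize (∑ g : Y → Option V,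
      Real.exp (-(dom g * Real.log (2 * Fintype.card Y * Fintype.card V)))) = Z at h4 ⊢
    have h5 : (2 * (P : ℝ) * (Fintype.card S : ℝ) ^ 2)⁻¹ *
        ((Fintype.card S : ℝ) * ((Fintype.card S : ℝ) * Z)) = 1 / (2 * P) * Z := by
      field_simp
    rw [h5]
    have h6 : 1 / (2 * (P : ℝ)) * Z ≤ 1 / (2 * (P : ℝ)) * 2 :=
      mul_le_mul_of_nonneg_left h4 (by positivity)
    have h7 : 1 / (2 * (P : ℝ)) * 2 = 1 / P := by field_simp
    linarith
  have h8 : (0 : ℝ) ≤ ∑ o : Option (S × S × (Y → Option V)), Real.exp (-cost1 P o) :=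
    Finset.sum_nonneg fun _ _ => (Real.exp_pos _).le
  have h9 : (∑ o : Option (S × S × (Y → Option V)), Real.exp (-cost1 P o)) ^ P ≤ 3 := by
    calc (∑ o : Option (S × S × (Y → Option V)), Real.exp (-cost1 P o)) ^ P
        ≤ (1 + 1 / (P : ℝ)) ^ P := pow_le_pow_left₀ h8 h3 _
      _ ≤ Real.exp (1 / (P : ℝ)) ^ P := by
          refine pow_le_pow_left₀ (by positivity) ?_ _
          have := Real.add_one_le_exp (1 / (P : ℝ))
          linarith
      _ = Real.exp 1 := by
          rw [← Real.exp_nat_mul]
          congr 1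
          field_simp
      _ ≤ 3 := by
          have := Real.exp_one_lt_d9
          linarith
  push_cast
  linarith

/-- Gibbs' inequality. -/
theorem entropy_le {Λ : Type} [Fintype Λ] (μ c : Λ → ℝ) (h0 : ∀ l, 0 ≤ μ l) (h1 : ∑ l, μ l = 1)
    (hc : ∑ l, Real.exp (-c l) ≤ 3) :
    ∑ l, μ l * (-Real.log (μ l)) ≤ ∑ l, μ l * c l + 2 := by
  have h2 : ∀ l, μ l * (-Real.log (μ l)) ≤ μ l * c l + (Real.exp (-c l) - μ l) := by
    intro l
    rcases (h0 l).eq_or_lt with h | h
    · rw [← h]
      have := Real.exp_pos (-c l)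
      simp only [zero_mul, sub_zero, zero_add]
      exact this.le
    · have h3 : 0 < Real.exp (-c l) / μ l := div_pos (Real.exp_pos _) h
      have h4 := Real.log_le_sub_one_of_pos h3
      rw [Real.log_div (Real.exp_pos _).ne' h.ne', Real.log_exp] at h4
      have h5 := mul_le_mul_of_nonneg_left h4 h.le
      have h6 : μ l * (Real.exp (-c l) / μ l - 1) = Real.exp (-c l) - μ l := by
        field_simp
      rw [h6] at h5
      nlinarith
  calc ∑ l, μ l * (-Real.log (μ l)) ≤ ∑ l, (μ l * c l + (Real.exp (-c l) - μ l)) :=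
        Finset.sum_le_sum fun l _ => h2 l
    _ = ∑ l, μ l * c l + (∑ l, Real.exp (-c l) - 1) := by
        rw [Finset.sum_add_distrib, Finset.sum_sub_distrib, h1]
    _ ≤ ∑ l, μ l * c l + 2 := by linarith

end Pool.Agent.Helper5.HA
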