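import Pool.Agent.Helper5.HA.Inst
import Pool.Agent.Helper5.HA.Trans

/-!
# The transcript of a run for a pair of vertices
-/

set_option autoImplicit false

open Finset
open scoped BigOperators

namespace Pool.Agent.Helper5.HA

open Pool.Agent.Helper22.ETModel

/-- The cells probed by a decision tree on the weights `w`. -/
def PTree.reads {n : ℕ} {α : Type} : {r : ℕ} → PTree n α r → Wts n → Finset (Fin n × Fin n)
  | _, .leaf _, _ => ∅
  | _, .probe i j next, w => insert (i, j) ((next (w i j)).reads w)

theorem PTree.card_reads {n : ℕ} {α : Type} {r : ℕ} (t : PTree n α r) (w : Wts n) :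
    (t.reads w).card ≤ r := by
  induction t with
  | leaf a => simp [PTree.reads]
  | probe i j next ih =>
    simp only [PTree.reads]
    exact (card_insert_le _ _).trans (Nat.succ_le_succ (ih (w i j)))

theorem PTree.agree {n : ℕ} {α : Type} {r : ℕ} (t : PTree n α r) (w w' : Wts n)
    (h : ∀ c ∈ t.reads w, w' c.1 c.2 = w c.1 c.2) :
    t.eval w' = t.eval w ∧ t.reads w' = t.reads w := by
  induction t with
  | leaf a => exact ⟨rfl, rfl⟩
  | probe i j next ih =>
    simp only [PTree.reads] at h
    have h1 : w' i j = w i j := h (i, j) (mem_insert_self _ _)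
    have h2 := ih (w i j) (fun c hc => h c (mem_insert_of_mem hc))
    simp only [PTree.eval, PTree.reads, h1]
    exact ⟨h2.1, by rw [h2.2]⟩

section

variable {n Q q r R : ℕ} {S : Type}

/-- The values of row `z` of `β` that are read by the probes in the cells `C`. -/
noncomputable def vals (β : Fin (n / 3) → Fin (n / 3) → Fin Q) (C : Finset (Fin n × Fin n))
    (z : Fin (n / 3)) (y : Fin (n / 3)) : Option (Fin Q) :=
  open Classical in
  if ∃ c ∈ C, keyB n c.1 c.2 = some (z, y) then some (β z y) else none

/-- The decision tree of phase `p` in state `s`. -/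
def Phased.tree (M : Phased n S q r R) (w : Wts n) (ρ : Fin R → Bool) (p : ℕ) (s : S) :
    PTree n S r :=
  M.act ρ p s (view (M.opn ρ p s) w)

/-- The entry of the transcript for phase `p`. -/
noncomputable def entry (M : Phased n S q r R) (ρ : Fin R → Bool) (x z : Fin (n / 3))
    (α β : Fin (n / 3) → Fin (n / 3) → Fin Q) (p : ℕ) :
    Option (S × S × (Fin (n / 3) → Option (Fin Q))) :=
  if vx x ∈ M.opn ρ p (M.run (inst α β).wt ρ p) then
    some (M.run (inst α β).wt ρ p, M.run (inst α β).wt ρ (p + 1),
      vals β ((M.tree (inst α β).wt ρ p (M.run (inst α β).wt ρ p)).reads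
        (hide (inst α β).wt)) z)
  else none

/-- The transcript. -/
noncomputable def tr (M : Phased n S q r R) (P : ℕ) (ρ : Fin R → Bool) (x z : Fin (n / 3))
    (α β : Fin (n / 3) → Fin (n / 3) → Fin Q) : Tr (Fin (n / 3)) (Fin Q) S P :=
  (M.out ρ (M.run (inst α β).wt ρ P), fun p => entry M ρ x z α β p)

theorem vals_eq_some {β : Fin (n / 3) → Fin (n / 3) → Fin Q} {C : Finset (Fin n × Fin n)}
    {z y : Fin (n / 3)} (h : ∃ c ∈ C, keyB n c.1 c.2 = some (z, y)) :
    vals β C z y = some (β z y) := by
  unfold vals
  exact if_pos h

/-- The crucial step: a phase in which row `x` is open, with the row `a` and the values `b'`, is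
the same as with `b`, if the transcript entries agree. -/
theorem phase_open (M : Phased n S q r R) (ρ : Fin R → Bool) (x z : Fin (n / 3))
    (α β : Fin (n / 3) → Fin (n / 3) → Fin Q) (a b b' : Fin (n / 3) → Fin Q) (p : ℕ) (s : S)
    (C : Finset (Fin n × Fin n))
    (hv : vals (Function.update β z b) ((M.tree (inst (Function.update α x a)
      (Function.update β z b)).wt ρ p s).reads (hide (inst (Function.update α x a)
      (Function.update β z b)).wt)) z = vals (Function.update β z b') C z) :
    M.step (inst (Function.update α x a) (Function.update β z b')).wt ρ p s =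
      M.step (inst (Function.update α x a) (Function.update β z b)).wt ρ p s ∧
    vals (Function.update β z b') ((M.tree (inst (Function.update α x a)
      (Function.update β z b')).wt ρ p s).reads (hide (inst (Function.update α x a)
      (Function.update β z b')).wt)) z =
    vals (Function.update β z b) ((M.tree (inst (Function.update α x a)
      (Function.update β z b)).wt ρ p s).reads (hide (inst (Function.update α x a)
      (Function.update β z b)).wt)) z := by
  classical
  have htree : M.tree (inst (Function.update α x a) (Function.update β z b')).wt ρ p s =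
      M.tree (inst (Function.update α x a) (Function.update β z b)).wt ρ p s := by
    unfold Phased.tree
    rw [view_β (Function.update α x a) (Function.update β z b') (Function.update β z b)]
  set t := M.tree (inst (Function.update α x a) (Function.update β z b)).wt ρ p s with ht
  set C0 := t.reads (hide (inst (Function.update α x a) (Function.update β z b)).wt) with hC0
  -- on the places that are read the values agree
  have hb : ∀ y, (∃ c ∈ C0, keyB n c.1 c.2 = some (z, y)) → b y = b' y := by
    intro y hy
    have h1 := congrFun hv y
    rw [vals_eq_some hy, Function.update_self] at h1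
    unfold vals at h1
    split at h1
    · rw [Function.update_self] at h1
      exact Option.some.inj h1
    · exact absurd h1.symm (by simp)
  have hag : ∀ c ∈ C0, hide (inst (Function.update α x a) (Function.update β z b')).wt c.1 c.2 =
      hide (inst (Function.update α x a) (Function.update β z b)).wt c.1 c.2 := by
    intro c hc
    refine hide_key _ _ _ _ c.1 c.2 ?_
    intro z' y hk
    by_cases hz : z' = z
    · subst hz
      rw [Function.update_self, Function.update_self]
      exact (hb y ⟨c, hc, hk⟩).symm
    · rw [Function.update_of_ne hz, Function.update_of_ne hz]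
  have hagree := t.agree _ _ hag
  refine ⟨?_, ?_⟩
  · change (M.tree (inst (Function.update α x a) (Function.update β z b')).wt ρ p s).eval _ =
      (M.tree (inst (Function.update α x a) (Function.update β z b)).wt ρ p s).eval _
    rw [htree, ← ht]
    exact hagree.1
  · rw [htree, hagree.2, ← hC0]
    funext y
    by_cases hy : ∃ c ∈ C0, keyB n c.1 c.2 = some (z, y)
    · rw [vals_eq_some hy, vals_eq_some hy, Function.update_self, Function.update_self, hb y hy]
    · unfold vals
      rw [if_neg hy, if_neg hy]

/-- The transcripts are constant on rectangles. -/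
theorem tr_rect (M : Phased n S q r R) (P : ℕ) (ρ : Fin R → Bool) (x z : Fin (n / 3))
    (α β : Fin (n / 3) → Fin (n / 3) → Fin Q) (a b a' b' : Fin (n / 3) → Fin Q)
    (h : tr M P ρ x z (Function.update α x a) (Function.update β z b) =
      tr M P ρ x z (Function.update α x a') (Function.update β z b')) :
    tr M P ρ x z (Function.update α x a) (Function.update β z b') =
      tr M P ρ x z (Function.update α x a) (Function.update β z b) := by
  classical
  have hout := congrArg Prod.fst h
  have hent : ∀ p < P, entry M ρ x z (Function.update α x a) (Function.update β z b) p =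
      entry M ρ x z (Function.update α x a') (Function.update β z b') p := by
    intro p hp
    exact congrFun (congrArg Prod.snd h) ⟨p, hp⟩
  -- one phase
  have hstep : ∀ p < P, M.run (inst (Function.update α x a) (Function.update β z b')).wt ρ p =
      M.run (inst (Function.update α x a') (Function.update β z b')).wt ρ p →
      M.run (inst (Function.update α x a) (Function.update β z b')).wt ρ (p + 1) =
        M.run (inst (Function.update α x a') (Function.update β z b')).wt ρ (p + 1) ∧
      entry M ρ x z (Function.update α x a) (Function.update β z b') p =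
        entry M ρ x z (Function.update α x a) (Function.update β z b) p := by
    intro p hp hrun
    have he := hent p hp
    by_cases hx : vx x ∈ M.opn ρ p (M.run (inst (Function.update α x a')
        (Function.update β z b')).wt ρ p)
    · -- row `x` is open
      have he' : entry M ρ x z (Function.update α x a') (Function.update β z b') p =
          some (M.run (inst (Function.update α x a') (Function.update β z b')).wt ρ p,
            M.run (inst (Function.update α x a') (Function.update β z b')).wt ρ (p + 1),
            vals (Function.update β z b') ((M.tree (inst (Function.update α x a')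
              (Function.update β z b')).wt ρ p (M.run (inst (Function.update α x a')
              (Function.update β z b')).wt ρ p)).reads
              (hide (inst (Function.update α x a') (Function.update β z b')).wt)) z) := by
        unfold entry
        rw [if_pos hx]
      rw [he'] at he
      have hx2 : vx x ∈ M.opn ρ p (M.run (inst (Function.update α x a)
          (Function.update β z b)).wt ρ p) := by
        by_contra hcon
        unfold entry at he
        rw [if_neg hcon] at he
        exact absurd he (by simp)
      unfold entry at he
      rw [if_pos hx2] at he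
      have he2 := Option.some.inj he
      have e1 := congrArg Prod.fst he2
      have e2 := congrArg (fun t => t.2.1) he2
      have e3 := congrArg (fun t => t.2.2) he2
      simp only at e1 e2 e3
      have hrun2 : M.run (inst (Function.update α x a) (Function.update β z b')).wt ρ p =
          M.run (inst (Function.update α x a) (Function.update β z b)).wt ρ p :=
        hrun.trans e1.symm
      have hph := phase_open M ρ x z α β a b b' p
        (M.run (inst (Function.update α x a) (Function.update β z b)).wt ρ p) _ e3
      have hnext : M.run (inst (Function.update α x a) (Function.update β z b')).wt ρ (p + 1) =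
          M.run (inst (Function.update α x a) (Function.update β z b)).wt ρ (p + 1) := by
        change M.step _ ρ p _ = M.step _ ρ p _
        rw [hrun2]
        exact hph.1
      refine ⟨hnext.trans e2, ?_⟩
      unfold entry
      rw [hnext, hrun2, if_pos hx2, if_pos hx2, hph.2]
    · -- row `x` is closed
      have hx' : vx x ∉ M.opn ρ p (M.run (inst (Function.update α x a)
          (Function.update β z b')).wt ρ p) := by rw [hrun]; exact hx
      have hnext : M.run (inst (Function.update α x a) (Function.update β z b')).wt ρ (p + 1) =
          M.run (inst (Function.update α x a') (Function.update β z b')).wt ρ (p + 1) := by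
        change M.step _ ρ p _ = M.step _ ρ p _
        rw [hrun]
        unfold Phased.step
        rw [view_update_α α (Function.update β z b') x a _ hx,
          view_update_α α (Function.update β z b') x a' _ hx,
          hide_update_α α (Function.update β z b') x a,
          hide_update_α α (Function.update β z b') x a']
      refine ⟨hnext, ?_⟩
      rw [he]
      unfold entry
      rw [if_neg hx, if_neg hx']
  have hall : ∀ p ≤ P, M.run (inst (Function.update α x a) (Function.update β z b')).wt ρ p =
      M.run (inst (Function.update α x a') (Function.update β z b')).wt ρ p := by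
    intro p
    induction p with
    | zero => intro _; rfl
    | succ p ih =>
      intro hp
      exact (hstep p (by omega) (ih (by omega))).1
  unfold tr
  refine Prod.ext ?_ ?_
  · change M.out ρ _ = M.out ρ _
    rw [hall P le_rfl]
    exact hout.symm
  · funext p
    exact (hstep p p.2 (hall p p.2.le)).2

/-- The number of values read. -/
theorem sum_dom_vals (β : Fin (n / 3) → Fin (n / 3) → Fin Q) (C : Finset (Fin n × Fin n)) :
    ∑ z, dom (vals β C z) ≤ C.card := by
  classical
  have h1 : ∑ z, dom (vals β C z) = ((univ : Finset (Fin (n / 3))).sigma fun z =>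
      univ.filter fun y => (vals β C z y).isSome = true).card := by
    rw [card_sigma]; rfl
  rw [h1]
  have h2 : ((univ : Finset (Fin (n / 3))).sigma fun z =>
      univ.filter fun y => (vals β C z y).isSome = true).image
        (fun s => (some (s.1, s.2) : Option (Fin (n / 3) × Fin (n / 3)))) ⊆
      C.image (fun c => keyB n c.1 c.2) := by
    intro o ho
    rw [mem_image] at ho
    obtain ⟨s, hs, rfl⟩ := ho
    rw [mem_sigma, mem_filter] at hs
    have h3 := hs.2.2
    unfold vals at h3
    split at h3
    · rename_i h
      obtain ⟨c, hc, hk⟩ := h
      exact mem_image.2 ⟨c, hc, hk⟩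
    · exact absurd h3 (by simp)
  have hinj : Function.Injective
      (fun s : (_ : Fin (n / 3)) × Fin (n / 3) =>
        (some (s.1, s.2) : Option (Fin (n / 3) × Fin (n / 3)))) := by
    intro s s' h
    obtain ⟨u, v⟩ := s
    obtain ⟨u', v'⟩ := s'
    simp only [Option.some.injEq, Prod.mk.injEq] at h
    obtain ⟨rfl, rfl⟩ := h
    rfl
  calc _ = _ := (card_image_of_injective _ hinj).symm
    _ ≤ _ := card_le_card h2
    _ ≤ _ := card_image_le

theorem vx_injective : Function.Injective (vx (n := n)) := by
  intro x x' h
  have := congrArg Fin.val h
  exact Fin.ext this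

/-- The sum of the costs over all pairs. -/
theorem sum_cost [Fintype S] [Nonempty S] (M : Phased n S q r R) (P : ℕ) (ρ : Fin R → Bool)
    (α β : Fin (n / 3) → Fin (n / 3) → Fin Q) (hn : 3 ≤ n) (hQ : 1 ≤ Q) (hP : 1 ≤ P) :
    ∑ x, ∑ z, cost (tr M P ρ x z α β) ≤ ((n / 3 : ℕ) : ℝ) ^ 2 * Real.log 2 +
      P * (q * (((n / 3 : ℕ) : ℝ) * Real.log (2 * P * (Fintype.card S : ℝ) ^ 2) +
        r * Real.log (2 * ((n / 3 : ℕ) : ℝ) * Q))) := by
  classical
  have hm1 : 1 ≤ n / 3 := by omega
  set A : ℝ := Real.log (2 * P * (Fintype.card S : ℝ) ^ 2) with hA
  set B : ℝ := Real.log (2 * ((n / 3 : ℕ) : ℝ) * Q) with hB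
  have hS1 : (1 : ℝ) ≤ Fintype.card S := by
    exact_mod_cast Fintype.card_pos (α := S)
  have hP1 : (1 : ℝ) ≤ P := by exact_mod_cast hP
  have hA0 : 0 ≤ A := by
    refine Real.log_nonneg ?_
    nlinarith [one_le_pow₀ hS1 (n := 2)]
  have hB0 : 0 ≤ B := by
    refine Real.log_nonneg ?_
    have h1 : (1 : ℝ) ≤ ((n / 3 : ℕ) : ℝ) := by exact_mod_cast hm1
    have h2 : (1 : ℝ) ≤ Q := by exact_mod_cast hQ
    nlinarith
  -- one phase
  have hphase : ∀ p : Fin P, ∑ x : Fin (n / 3), ∑ z : Fin (n / 3), cost1 P (entry M ρ x z α β p) ≤
      q * (((n / 3 : ℕ) : ℝ) * A + r * B) := by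
    intro p
    set O := M.opn ρ p (M.run (inst α β).wt ρ p) with hO
    set C := (M.tree (inst α β).wt ρ p (M.run (inst α β).wt ρ p)).reads (hide (inst α β).wt)
      with hC
    have hx : ∀ x : Fin (n / 3), ∑ z : Fin (n / 3), cost1 P (entry M ρ x z α β p) ≤
        if vx x ∈ O then (((n / 3 : ℕ) : ℝ) * A + r * B) else 0 := by
      intro x
      by_cases hx : vx x ∈ O
      · rw [if_pos hx]
        have h1 : ∀ z : Fin (n / 3), cost1 P (entry M ρ x z α β p) = A + dom (vals β C z) * B := by
          intro z
          unfold entry
          rw [if_pos hx]
          simp only [cost1, Fintype.card_fin]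
          rfl
        rw [sum_congr rfl fun z _ => h1 z, sum_add_distrib, sum_const, card_univ,
          Fintype.card_fin, nsmul_eq_mul, ← sum_mul]
        have h2 : (∑ z : Fin (n / 3), (dom (vals β C z) : ℝ)) ≤ r := by
          have h3 := (sum_dom_vals β C).trans
            ((M.tree (inst α β).wt ρ p (M.run (inst α β).wt ρ p)).card_reads _)
          exact_mod_cast h3
        have := mul_le_mul_of_nonneg_right h2 hB0
        linarith
      · rw [if_neg hx]
        refine le_of_eq (sum_eq_zero fun z _ => ?_)
        unfold entry
        rw [if_neg hx]
        rfl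
    calc ∑ x : Fin (n / 3), ∑ z : Fin (n / 3), cost1 P (entry M ρ x z α β p)
        ≤ ∑ x : Fin (n / 3), (if vx x ∈ O then (((n / 3 : ℕ) : ℝ) * A + r * B) else 0) :=
          sum_le_sum fun x _ => hx x
      _ = ((univ.filter fun x : Fin (n / 3) => vx x ∈ O).card : ℝ) * (((n / 3 : ℕ) : ℝ) * A + r * B) := by
          rw [← sum_filter, sum_const, nsmul_eq_mul]
      _ ≤ q * (((n / 3 : ℕ) : ℝ) * A + r * B) := by
          refine mul_le_mul_of_nonneg_right ?_ (by positivity)
          have h4 : (univ.filter fun x : Fin (n / 3) => vx x ∈ O).card ≤ O.card := by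
            refine card_le_card_of_injOn vx ?_ (vx_injective.injOn)
            intro x hx
            simp only [coe_filter, mem_univ, true_and] at hx
            exact hx
          exact_mod_cast h4.trans (M.card_opn ρ p _)
  calc ∑ x, ∑ z, cost (tr M P ρ x z α β)
      = ((n / 3 : ℕ) : ℝ) ^ 2 * Real.log 2 +
        ∑ p : Fin P, ∑ x : Fin (n / 3), ∑ z : Fin (n / 3), cost1 P (entry M ρ x z α β p) := by
        have h5 : ∀ x z : Fin (n / 3), cost (tr M P ρ x z α β) =
            Real.log 2 + ∑ p : Fin P, cost1 P (entry M ρ x z α β p) := fun x z => rfl
        simp only [h5, sum_add_distrib, sum_const, card_univ, Fintype.card_fin, nsmul_eq_mul]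
        congr 1
        · ring
        · rw [sum_comm (s := (univ : Finset (Fin P)))]
          refine sum_congr rfl fun x _ => ?_
          rw [sum_comm]
    _ ≤ ((n / 3 : ℕ) : ℝ) ^ 2 * Real.log 2 + ∑ _p : Fin P, q * (((n / 3 : ℕ) : ℝ) * A + r * B) := by
        have := sum_le_sum fun p (_ : p ∈ (univ : Finset (Fin P))) => hphase p
        linarith
    _ = ((n / 3 : ℕ) : ℝ) ^ 2 * Real.log 2 + P * (q * (((n / 3 : ℕ) : ℝ) * A + r * B)) := by
        rw [sum_const, card_univ, Fintype.card_fin, nsmul_eq_mul]

end

end Pool.Agent.Helper5.HA
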