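import Pool.Agent.Helper5.HA.Statement

/-!
# Phased machines with two memory states

Phases: pairs of a block of at most `q` rows (class `0`) and a block of at most `s` vertices of
class `2`. In a phase all weights between the block of class `2` and the other vertices are probed
(at most `n * s ≤ 2 * n * s` probes, non-adaptively), and it is tested
whether there is a zero triangle with its vertices in the two blocks and in class `1`; the memory
bit remembers whether one has been found. At most `(n / q + 1) * (n / s + 1) ≤ 4 n ^ 2 / (q s)`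
phases.
-/

set_option autoImplicit false

namespace Pool.Agent.Helper5.HA

open Pool.Agent.Helper22.ETModel

/-- A tree that reads the cells of a list and applies a function. -/
def readList {n : ℕ} {α : Type} (f : Wts n → α) :
    (r : ℕ) → List (Fin n × Fin n) → Wts n → PTree n α r
  | 0, _, w0 => .leaf (f w0)
  | _ + 1, [], w0 => .leaf (f w0)
  | r + 1, (i, j) :: L, w0 => .probe i j fun z =>
      readList f r L (Function.update w0 i (Function.update (w0 i) j z))

theorem readList_eval {n : ℕ} {α : Type} (f : Wts n → α) (w : Wts n) :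
    ∀ (r : ℕ) (L : List (Fin n × Fin n)) (w0 : Wts n), L.length ≤ r →
      (readList f r L w0).eval w = f fun i j => if (i, j) ∈ L then w i j else w0 i j := by
  intro r
  induction r with
  | zero =>
    intro L w0 hL
    have : L = [] := List.length_eq_zero_iff.1 (Nat.le_zero.1 hL)
    subst this
    simp [readList, PTree.eval]
  | succ r ih =>
    intro L w0 hL
    cases L with
    | nil => simp [readList, PTree.eval]
    | cons c L =>
      obtain ⟨i, j⟩ := c
      simp only [List.length_cons, Nat.add_le_add_iff_right] at hL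
      simp only [readList, PTree.eval]
      rw [ih L _ hL]
      congr 1
      funext i' j'
      by_cases h : (i', j') ∈ L
      · rw [if_pos h, if_pos (List.mem_cons_of_mem _ h)]
      · rw [if_neg h]
        by_cases h2 : (i', j') = (i, j)
        · have h3 : i' = i := congrArg Prod.fst h2
          have h4 : j' = j := congrArg Prod.snd h2
          subst h3 h4
          simp
        · rw [if_neg (fun hm => by
            rcases List.mem_cons.1 hm with h3 | h3
            · exact h2 h3
            · exact h h3)]
          by_cases h3 : i' = i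
          · subst h3
            rw [Function.update_self, Function.update_of_ne]
            intro h4
            exact h2 (by rw [h4])
          · rw [Function.update_of_ne h3]

/-- There is a zero triangle with the vertices `x`, `y`, `z` in the three classes. -/
def Zero3 {n : ℕ} (w : Wts n) (x y z : Fin n) : Prop :=
  part n x = 0 ∧ part n y = 1 ∧ part n z = 2 ∧ w x y + w y z + w x z = 0

theorem yes_iff_zero3 {n : ℕ} (I : Inst n) (hI : I.Valid) (hT : Thirds I) :
    I.Yes ↔ ∃ x y z, Zero3 I.wt x y z := by
  constructor
  · rintro ⟨i, j, k, hij, hjk, hik, fij, fjk, fik, hs⟩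
    have gij := (hT i j).1 fij
    have gjk := (hT j k).1 fjk
    have gik := (hT i k).1 fik
    have s1 := hI.2.2.1 i j
    have s2 := hI.2.2.1 j k
    have s3 := hI.2.2.1 i k
    have c : ∀ v : Fin n, part n v = 0 ∨ part n v = 1 ∨ part n v = 2 := by
      intro v
      generalize part n v = c
      fin_cases c <;> simp
    rcases c i with hi | hi | hi <;> rcases c j with hj | hj | hj <;>
      rcases c k with hk | hk | hk <;>
      first
      | exact absurd (hi.trans hj.symm) gij
      | exact absurd (hj.trans hk.symm) gjk
      | exact absurd (hi.trans hk.symm) gik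
      | exact ⟨i, j, k, hi, hj, hk, by linarith⟩
      | exact ⟨i, k, j, hi, hk, hj, by linarith⟩
      | exact ⟨j, i, k, hj, hi, hk, by linarith⟩
      | exact ⟨j, k, i, hj, hk, hi, by linarith⟩
      | exact ⟨k, i, j, hk, hi, hj, by linarith⟩
      | exact ⟨k, j, i, hk, hj, hi, by linarith⟩
  · rintro ⟨x, y, z, hx, hy, hz, hs⟩
    have n1 : part n x ≠ part n y := by rw [hx, hy]; decide
    have n2 : part n y ≠ part n z := by rw [hy, hz]; decide
    have n3 : part n x ≠ part n z := by rw [hx, hz]; decide
    exact ⟨x, y, z, fun h => n1 (by rw [h]), fun h => n2 (by rw [h]), fun h => n3 (by rw [h]),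
      (hT x y).2 n1, (hT y z).2 n2, (hT x z).2 n3, hs⟩

/-- The cells in the columns of a block. -/
noncomputable def cellsOf (n s b : ℕ) : List (Fin n × Fin n) :=
  ((Finset.univ : Finset (Fin n)) ×ˢ
    (Finset.univ.filter fun z : Fin n => (z : ℕ) / s = b)).toList

theorem mem_cellsOf {n s b : ℕ} (u z : Fin n) : (u, z) ∈ cellsOf n s b ↔ (z : ℕ) / s = b := by
  unfold cellsOf
  rw [Finset.mem_toList, Finset.mem_product, Finset.mem_filter]
  simp

theorem card_block {n s : ℕ} (hs : 1 ≤ s) (b : ℕ) :
    (Finset.univ.filter fun z : Fin n => (z : ℕ) / s = b).card ≤ s := by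
  have h1 : ((Finset.univ.filter fun z : Fin n => (z : ℕ) / s = b).map Fin.valEmbedding) ⊆
      Finset.Ico (b * s) (b * s + s) := by
    intro v hv
    rw [Finset.mem_map] at hv
    obtain ⟨z, hz, rfl⟩ := hv
    rw [Finset.mem_filter] at hz
    have h2 := hz.2
    have h3 := Nat.div_add_mod (z : ℕ) s
    have h4 := Nat.mod_lt (z : ℕ) (show 0 < s by omega)
    rw [h2] at h3
    rw [Finset.mem_Ico]
    have h5 : s * b = b * s := Nat.mul_comm _ _
    simp only [Fin.valEmbedding_apply]
    omega
  have h2 := Finset.card_le_card h1
  rw [Finset.card_map, Nat.card_Ico] at h2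
  omega

theorem length_cellsOf {n s : ℕ} (hs : 1 ≤ s) (b : ℕ) : (cellsOf n s b).length ≤ 2 * n * s := by
  unfold cellsOf
  rw [Finset.length_toList, Finset.card_product, Finset.card_univ, Fintype.card_fin]
  have := Nat.mul_le_mul_left n (card_block (n := n) hs b)
  have h2 : 2 * n * s = n * s + n * s := by ring
  omega

open Classical in
/-- The machine. -/
noncomputable def blockMachine (n q s : ℕ) (hq : 1 ≤ q) : Phased n Bool q (2 * n * s) 0 where
  init _ := false
  opn _ p _ := Finset.univ.filter fun x : Fin n => (x : ℕ) / q = p / (n / s + 1)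
  card_opn _ p _ := card_block hq _
  act _ p st v := if st = true then .leaf true else
    readList (fun u => decide (∃ x y z : Fin n, part n x = 0 ∧ part n y = 1 ∧ part n z = 2 ∧
      (x : ℕ) / q = p / (n / s + 1) ∧ (z : ℕ) / s = p % (n / s + 1) ∧
      v x y + u y z + u x z = 0)) (2 * n * s) (cellsOf n s (p % (n / s + 1))) 0
  out _ st := st

theorem block_run (n q s : ℕ) (hq : 1 ≤ q) (hs : 1 ≤ s) (w : Wts n)
    (ρ : Fin 0 → Bool) (p : ℕ) : (blockMachine n q s hq).run w ρ p = true ↔ ∃ p' < p, ∃ x y z : Fin n, Zero3 w x y z ∧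
      (x : ℕ) / q = p' / (n / s + 1) ∧ (z : ℕ) / s = p' % (n / s + 1) := by
  induction p with
  | zero => simp [Phased.run, blockMachine]
  | succ p ih =>
    have key : (blockMachine n q s hq).run w ρ (p + 1) = true ↔
        (blockMachine n q s hq).run w ρ p = true ∨ ∃ x y z : Fin n, Zero3 w x y z ∧
      (x : ℕ) / q = p / (n / s + 1) ∧ (z : ℕ) / s = p % (n / s + 1) := by
      show (blockMachine n q s hq).step w ρ p ((blockMachine n q s hq).run w ρ p) = true ↔ _
      generalize (blockMachine n q s hq).run w ρ p = st
      cases st with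
      | true => simp [Phased.step, blockMachine, PTree.eval]
      | false =>
        simp only [Phased.step, blockMachine, Bool.false_eq_true, if_false, false_or]
        rw [readList_eval _ _ _ _ _ (length_cellsOf hs _), decide_eq_true_iff]
        constructor
        · rintro ⟨x, y, z, hx, hy, hz, h1, h2, h3⟩
          refine ⟨x, y, z, ⟨hx, hy, hz, ?_⟩, h1, h2⟩
          simpa [mem_cellsOf, h2, view, hide, InA, hx, hy, hz, h1] using h3
        · rintro ⟨x, y, z, ⟨hx, hy, hz, h3⟩, h1, h2⟩
          refine ⟨x, y, z, hx, hy, hz, h1, h2, ?_⟩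
          simpa [mem_cellsOf, h2, view, hide, InA, hx, hy, hz, h1] using h3
    rw [key, ih]
    constructor
    · rintro (⟨p', hp', h⟩ | h)
      · exact ⟨p', by omega, h⟩
      · exact ⟨p, by omega, h⟩
    · rintro ⟨p', hp', h⟩
      rcases Nat.lt_succ_iff_lt_or_eq.1 hp' with h1 | h1
      · exact Or.inl ⟨p', h1, h⟩
      · subst h1
        exact Or.inr h

theorem phasedUpper : PhasedUpper := by
  intro n q s hq hqn hs hsn
  refine ⟨(n / q + 1) * (n / s + 1), blockMachine n q s hq, ?_, ?_⟩
  · intro I hI hT
    have h1 : {ρ : Fin 0 → Bool | (blockMachine n q s hq).out ρ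
        ((blockMachine n q s hq).run I.wt ρ ((n / q + 1) * (n / s + 1))) = true ↔ I.Yes} =
        Set.univ := by
      ext ρ
      simp only [Set.mem_setOf_eq, Set.mem_univ, iff_true]
      show (blockMachine n q s hq).run I.wt ρ ((n / q + 1) * (n / s + 1)) = true ↔ I.Yes
      rw [block_run n q s hq hs, yes_iff_zero3 I hI hT]
      constructor
      · rintro ⟨p', _, x, y, z, h, _⟩
        exact ⟨x, y, z, h⟩
      · rintro ⟨x, y, z, h⟩
        have h2 : (z : ℕ) / s < n / s + 1 :=
          Nat.lt_succ_of_le (Nat.div_le_div_right z.isLt.le)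
        have h3 : (x : ℕ) / q < n / q + 1 :=
          Nat.lt_succ_of_le (Nat.div_le_div_right x.isLt.le)
        refine ⟨(x : ℕ) / q * (n / s + 1) + (z : ℕ) / s, ?_, x, y, z, h, ?_, ?_⟩
        · calc (x : ℕ) / q * (n / s + 1) + (z : ℕ) / s
              < (x : ℕ) / q * (n / s + 1) + (n / s + 1) := by omega
            _ = ((x : ℕ) / q + 1) * (n / s + 1) := by ring
            _ ≤ (n / q + 1) * (n / s + 1) := Nat.mul_le_mul_right _ h3
        · rw [Nat.add_comm, Nat.add_mul_div_right _ _ (Nat.succ_pos _), Nat.div_eq_of_lt h2,
            Nat.zero_add]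
        · rw [Nat.add_comm, Nat.add_mul_mod_self_right, Nat.mod_eq_of_lt h2]
    rw [h1, Set.ncard_univ, Nat.card_eq_fintype_card]
    simp
  · have h1 : (n / q + 1) * q ≤ 2 * n := by
      have := Nat.div_mul_le_self n q
      calc (n / q + 1) * q = n / q * q + q := by ring
        _ ≤ n + n := Nat.add_le_add this hqn
        _ = 2 * n := by ring
    have h2 : (n / s + 1) * s ≤ 2 * n := by
      have := Nat.div_mul_le_self n s
      calc (n / s + 1) * s = n / s * s + s := by ring
        _ ≤ n + n := Nat.add_le_add this hsn
        _ = 2 * n := by ring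
    calc (n / q + 1) * (n / s + 1) * (q * s) = ((n / q + 1) * q) * ((n / s + 1) * s) := by ring
      _ ≤ (2 * n) * (2 * n) := Nat.mul_le_mul h1 h2
      _ = 4 * n ^ 2 := by ring

end Pool.Agent.Helper5.HA
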